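import Mathlib

/-!
# Chip firing on finite multigraphs: definitions (helper254)

Divisors, Laplacian, linear equivalence, Baker-Norine rank conditions, gonality sequence.
-/

namespace Pool.Agent.Q254.Chip

open Finset

/-- A loopless multigraph on the vertex type `V`, given by its edge multiplicities. -/
structure MGraph (V : Type) where
  /-- number of edges between two vertices -/
  m : V → V → ℕ
  symm : ∀ u v, m u v = m v u
  loopless : ∀ v, m v v = 0

namespace MGraph

variable {V : Type}

/-- The simple graph recording which pairs of vertices are joined by at least one edge. -/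
def simple (G : MGraph V) : SimpleGraph V where
  Adj u v := 0 < G.m u v
  symm := ⟨fun u v (h : 0 < G.m u v) => by
    show 0 < G.m v u
    rw [G.symm v u]; exact h⟩
  loopless := ⟨fun v (h : 0 < G.m v v) => by rw [G.loopless v] at h; exact lt_irrefl 0 h⟩

/-- A multigraph is connected if its underlying simple graph is connected. -/
def Connected (G : MGraph V) : Prop := G.simple.Connected

variable [Fintype V]

/-- Number of edges (with multiplicity). -/
def numEdges (G : MGraph V) : ℕ := (∑ u, ∑ v, G.m u v) / 2

/-- The genus `|E| - |V| + 1`. -/
def genus (G : MGraph V) : ℤ := (G.numEdges : ℤ) - (Fintype.card V : ℤ) + 1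

/-- Degree of a divisor. -/
def deg (D : V → ℤ) : ℤ := ∑ v, D v

/-- Effective divisors. -/
def Effective (D : V → ℤ) : Prop := ∀ v, 0 ≤ D v

/-- The Laplacian applied to the firing script `f`: the total loss of chips of every vertex when
every vertex `v` is fired `f v` times. -/
def lap (G : MGraph V) (f : V → ℤ) : V → ℤ := fun v => ∑ u, (G.m u v : ℤ) * (f v - f u)

/-- Linear equivalence of divisors: the difference lies in the image of the Laplacian. -/
def LinEquiv (G : MGraph V) (D D' : V → ℤ) : Prop := ∃ f : V → ℤ, ∀ v, D v - D' v = G.lap f v

/-- The Baker-Norine rank of `D` is at least `r` (for `r ≥ 0`): for every effective `E` of degree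
`r`, the divisor `D - E` is equivalent to an effective divisor. -/
def RankGE (G : MGraph V) (D : V → ℤ) (r : ℕ) : Prop :=
  ∀ E : V → ℤ, Effective E → deg E = (r : ℤ) →
    ∃ F : V → ℤ, Effective F ∧ G.LinEquiv (fun v => D v - E v) F

/-- The `r`-th gonality: the minimum degree of a divisor of rank at least `r`. -/
noncomputable def gon (G : MGraph V) (r : ℕ) : ℕ :=
  sInf {d : ℕ | ∃ D : V → ℤ, deg D = (d : ℤ) ∧ G.RankGE D r}

end MGraph

end Pool.Agent.Q254.Chip
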