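import Mathlib
import Pool.Agent.Q254.ChipDef

/-!
# Chip firing on finite multigraphs: basic lemmas and certificates (helper254)
-/

namespace Pool.Agent.Q254.Chip

open Finset

namespace MGraph

variable {V : Type} [Fintype V]

theorem lap_add (G : MGraph V) (f g : V → ℤ) (v : V) :
    G.lap (fun u => f u + g u) v = G.lap f v + G.lap g v := by
  simp only [lap, ← Finset.sum_add_distrib]
  exact Finset.sum_congr rfl fun u _ => by ring

theorem lap_neg (G : MGraph V) (f : V → ℤ) (v : V) :
    G.lap (fun u => - f u) v = - G.lap f v := by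
  simp only [lap, ← Finset.sum_neg_distrib]
  exact Finset.sum_congr rfl fun u _ => by ring

theorem LinEquiv.refl (G : MGraph V) (D : V → ℤ) : G.LinEquiv D D :=
  ⟨fun _ => 0, fun v => by simp [lap]⟩

theorem LinEquiv.symm {G : MGraph V} {D D' : V → ℤ} (h : G.LinEquiv D D') : G.LinEquiv D' D := by
  obtain ⟨f, hf⟩ := h
  exact ⟨fun u => - f u, fun v => by rw [lap_neg, ← hf v]; ring⟩

theorem LinEquiv.trans {G : MGraph V} {D D' D'' : V → ℤ} (h : G.LinEquiv D D')
    (h' : G.LinEquiv D' D'') : G.LinEquiv D D'' := by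
  obtain ⟨f, hf⟩ := h
  obtain ⟨g, hg⟩ := h'
  exact ⟨fun u => f u + g u, fun v => by rw [lap_add, ← hf v, ← hg v]; ring⟩

theorem LinEquiv.add {G : MGraph V} {D D' : V → ℤ} (h : G.LinEquiv D D') (E : V → ℤ) :
    G.LinEquiv (fun v => D v + E v) (fun v => D' v + E v) := by
  obtain ⟨f, hf⟩ := h
  exact ⟨f, fun v => by rw [← hf v]; ring⟩

theorem LinEquiv.sub {G : MGraph V} {D D' : V → ℤ} (h : G.LinEquiv D D') (E : V → ℤ) :
    G.LinEquiv (fun v => D v - E v) (fun v => D' v - E v) := by
  obtain ⟨f, hf⟩ := h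
  exact ⟨f, fun v => by rw [← hf v]; ring⟩

theorem deg_lap (G : MGraph V) (f : V → ℤ) : deg (G.lap f) = 0 := by
  have h1 : deg (G.lap f) = ∑ v, ∑ u, (G.m u v : ℤ) * (f v - f u) := rfl
  have h2 : deg (G.lap f) = ∑ v, ∑ u, (G.m v u : ℤ) * (f u - f v) := by
    rw [h1, Finset.sum_comm]
  have h3 : ∑ v, ∑ u, (G.m v u : ℤ) * (f u - f v) = - ∑ v, ∑ u, (G.m u v : ℤ) * (f v - f u) := by
    rw [← Finset.sum_neg_distrib]
    refine Finset.sum_congr rfl fun v _ => ?_
    rw [← Finset.sum_neg_distrib]
    refine Finset.sum_congr rfl fun u _ => ?_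
    rw [G.symm v u]
    ring
  rw [h3, ← h1] at h2
  linarith

theorem LinEquiv.deg_eq {G : MGraph V} {D D' : V → ℤ} (h : G.LinEquiv D D') : deg D = deg D' := by
  obtain ⟨f, hf⟩ := h
  have h0 := G.deg_lap f
  have : deg D - deg D' = deg (G.lap f) := by
    simp only [deg, ← Finset.sum_sub_distrib]
    exact Finset.sum_congr rfl fun v _ => hf v
  linarith

theorem RankGE.congr {G : MGraph V} {D D' : V → ℤ} {r : ℕ} (h : G.RankGE D r)
    (hD : G.LinEquiv D D') : G.RankGE D' r := by
  intro E hE hd
  obtain ⟨F, hF, hDF⟩ := h E hE hd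
  exact ⟨F, hF, (hD.symm.sub E).trans hDF⟩

theorem RankGE.add_eff {G : MGraph V} {D : V → ℤ} {r : ℕ} (h : G.RankGE D r)
    {A : V → ℤ} (hA : Effective A) : G.RankGE (fun v => D v + A v) r := by
  intro E hE hd
  obtain ⟨F, hF, hDF⟩ := h E hE hd
  refine ⟨fun v => F v + A v, fun v => add_nonneg (hF v) (hA v), ?_⟩
  have := hDF.add A
  convert this using 2
  ring

variable [DecidableEq V]

/-- The divisor consisting of one chip on `v`. -/
def single (v : V) : V → ℤ := fun w => if w = v then 1 else 0

omit [Fintype V] in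
theorem single_eff (v : V) : Effective (single v) := fun w => by
  unfold single; split_ifs <;> norm_num

theorem deg_single (v : V) : deg (single v) = 1 := by
  simp [deg, single]

/-- Positive rank means that one chip may be removed anywhere. -/
theorem rankGE_one_iff (G : MGraph V) (D : V → ℤ) :
    G.RankGE D 1 ↔ ∀ v, ∃ F, Effective F ∧ G.LinEquiv (fun w => D w - single v w) F := by
  constructor
  · intro h v
    exact h (single v) (single_eff v) (by rw [deg_single]; rfl)
  · intro h E hE hd
    have : ∃ v, 0 < E v := by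
      by_contra hcon
      push Not at hcon
      have : deg E ≤ 0 := Finset.sum_nonpos fun v _ => hcon v
      rw [hd] at this
      norm_num at this
    obtain ⟨v, hv⟩ := this
    have hE' : E = single v := by
      funext w
      have h1 : ∑ x, (E x - single v x) = 0 := by
        rw [Finset.sum_sub_distrib]
        have h2 : ∑ x, E x = 1 := hd
        have h3 : ∑ x, single v x = 1 := deg_single v
        rw [h2, h3]; norm_num
      have h2 : ∀ x ∈ (Finset.univ : Finset V), 0 ≤ E x - single v x := by
        intro x _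
        unfold single
        split_ifs with hx
        · subst hx; linarith
        · have := hE x; linarith
      have h3 := (Finset.sum_eq_zero_iff_of_nonneg h2).1 h1 w (Finset.mem_univ w)
      linarith
    rw [hE']
    exact h v

theorem RankGE.sub_single {G : MGraph V} {D : V → ℤ} {r : ℕ} (h : G.RankGE D (r + 1)) (v : V) :
    G.RankGE (fun w => D w - single v w) r := by
  intro E hE hd
  obtain ⟨F, hF, hDF⟩ := h (fun w => single v w + E w)
    (fun w => add_nonneg (single_eff v w) (hE w)) (by
      have : deg (fun w => single v w + E w) = deg (single v) + deg E := Finset.sum_add_distrib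
      rw [this, deg_single, hd]; push_cast; ring)
  refine ⟨F, hF, ?_⟩
  convert hDF using 2
  ring

omit [DecidableEq V] in
/-- **Non-effectiveness certificate**: if, for some ordering `π` of the vertices, every
vertex `w` has fewer chips than edges to `π`-smaller vertices, then `D` is not equivalent to an
effective divisor. -/
theorem not_effective_of_order [Nonempty V] (G : MGraph V) (D : V → ℤ) (π : V → ℕ)
    (h : ∀ w, D w < ∑ u, if π u < π w then (G.m u w : ℤ) else 0) :
    ¬ ∃ F, Effective F ∧ G.LinEquiv D F := by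
  rintro ⟨F, hF, f, hf⟩
  obtain ⟨a, -, ha⟩ := Finset.exists_max_image (Finset.univ : Finset V) f Finset.univ_nonempty
  have hne : (Finset.univ.filter fun w => f w = f a).Nonempty := ⟨a, by simp⟩
  obtain ⟨w, hw, hwmin⟩ := Finset.exists_min_image (Finset.univ.filter fun w => f w = f a) π hne
  have hwa : f w = f a := (Finset.mem_filter.1 hw).2
  have hle : (∑ u, if π u < π w then (G.m u w : ℤ) else 0) ≤ G.lap f w := by
    rw [lap]
    refine Finset.sum_le_sum fun u _ => ?_
    have hfu : f u ≤ f w := by rw [hwa]; exact ha u (Finset.mem_univ u)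
    have hm : (0 : ℤ) ≤ (G.m u w : ℤ) := Int.natCast_nonneg _
    split_ifs with hu
    · have hne' : f u ≠ f w := by
        intro he
        have := hwmin u (Finset.mem_filter.2 ⟨Finset.mem_univ u, he.trans hwa⟩)
        omega
      have h1 : 1 ≤ f w - f u := by
        have := lt_of_le_of_ne hfu hne'
        linarith
      nlinarith
    · exact mul_nonneg hm (by linarith)
  have h1 := hf w
  have h2 := h w
  have h3 := hF w
  linarith

end MGraph

/-- All lists of naturals of length `n` with sum `d`. -/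
def comps : ℕ → ℕ → List (List ℕ)
  | 0, 0 => [[]]
  | 0, _ + 1 => []
  | n + 1, d => (List.range (d + 1)).flatMap fun a => (comps n (d - a)).map (fun l => a :: l)

theorem mem_comps : ∀ (n d : ℕ) (l : List ℕ), l.length = n → l.sum = d → l ∈ comps n d
  | 0, d, l, hl, hs => by
    have : l = [] := List.length_eq_zero_iff.1 hl
    subst this
    simp only [List.sum_nil] at hs
    subst hs
    simp [comps]
  | n + 1, d, l, hl, hs => by
    cases l with
    | nil => simp at hl
    | cons a l =>
      simp only [List.length_cons, Nat.add_right_cancel_iff] at hl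
      simp only [List.sum_cons] at hs
      simp only [comps, List.mem_flatMap, List.mem_range, List.mem_map]
      exact ⟨a, by omega, l, mem_comps n (d - a) l hl (by omega), rfl⟩

/-- The divisor on `Fin n` with the given list of values. -/
def vec {n : ℕ} (l : List ℤ) : Fin n → ℤ := fun i => l.getD i 0

theorem exists_comp {n : ℕ} (E : Fin n → ℤ) (d : ℕ) (hE : MGraph.Effective E)
    (hd : MGraph.deg E = (d : ℤ)) :
    ∃ l ∈ comps n d, E = fun i : Fin n => ((l.getD i 0 : ℕ) : ℤ) := by
  refine ⟨List.ofFn fun i => (E i).toNat, mem_comps _ _ _ (by simp) ?_, ?_⟩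
  · rw [List.sum_ofFn]
    zify
    rw [← hd]
    exact Finset.sum_congr rfl fun i _ => Int.toNat_of_nonneg (hE i)
  · funext i
    have : (List.ofFn fun i => (E i).toNat).getD (i : ℕ) 0 = (E i).toNat := by
      simp [List.getD_eq_getElem?_getD]
    rw [this]
    exact (Int.toNat_of_nonneg (hE i)).symm

namespace MGraph

/-- Certificate for a lower bound of the rank: a list of firing scripts. -/
theorem rankGE_of_scripts {n : ℕ} (G : MGraph (Fin n)) (D : Fin n → ℤ) (r : ℕ)
    (S : List (List ℤ))
    (h : ∀ E ∈ comps n r, ∃ f ∈ S, ∀ v : Fin n,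
      0 ≤ D v - ((E.getD v 0 : ℕ) : ℤ) - G.lap (vec f) v) : G.RankGE D r := by
  intro E hE hd
  obtain ⟨l, hl, rfl⟩ := exists_comp E r hE hd
  obtain ⟨f, -, hf⟩ := h l hl
  exact ⟨fun v => D v - ((l.getD v 0 : ℕ) : ℤ) - G.lap (vec f) v, hf, vec f, fun v => by ring⟩

/-- A certificate that `D - v` is not equivalent to an effective divisor: the vertex `v`, a firing
script, and the positions of the vertices in an ordering. -/
def badCert {n : ℕ} (G : MGraph (Fin n)) (D : Fin n → ℤ) (c : Fin n × List ℤ × List ℕ) : Prop :=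
  ∀ w : Fin n, D w - single c.1 w - G.lap (vec c.2.1) w
    < ∑ u : Fin n, if c.2.2.getD u 0 < c.2.2.getD w 0 then (G.m u w : ℤ) else 0

instance {n : ℕ} (G : MGraph (Fin n)) (D : Fin n → ℤ) (c : Fin n × List ℤ × List ℕ) :
    Decidable (badCert G D c) := by
  unfold badCert; infer_instance

theorem not_rankGE_of_badCert {n : ℕ} (G : MGraph (Fin n)) (D : Fin n → ℤ)
    (c : Fin n × List ℤ × List ℕ) (hc : badCert G D c) : ¬ G.RankGE D 1 := by
  intro h
  have : Nonempty (Fin n) := ⟨c.1⟩
  obtain ⟨F, hF, hDF⟩ := (G.rankGE_one_iff D).1 h c.1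
  refine G.not_effective_of_order (fun w => D w - single c.1 w - G.lap (vec c.2.1) w)
    (fun u => c.2.2.getD u 0) hc ⟨F, hF, ?_⟩
  refine LinEquiv.trans (LinEquiv.symm ⟨vec c.2.1, fun v => ?_⟩) hDF
  ring

/-- If no effective divisor of degree `d` has positive rank, then every divisor of positive rank
has degree larger than `d`. -/
theorem deg_gt_of_no_eff {n : ℕ} (G : MGraph (Fin (n + 1))) (d : ℕ)
    (h : ∀ D : Fin (n + 1) → ℤ, Effective D → deg D = (d : ℤ) → ¬ G.RankGE D 1)
    (D : Fin (n + 1) → ℤ) (hD : G.RankGE D 1) : (d : ℤ) < deg D := by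
  by_contra hcon
  push Not at hcon
  obtain ⟨F, hF, hDF⟩ := (G.rankGE_one_iff D).1 hD 0
  -- an effective divisor equivalent to `D`
  have hA : Effective fun w => F w + single (0 : Fin (n + 1)) w :=
    fun w => add_nonneg (hF w) (single_eff _ w)
  have hDA : G.LinEquiv D fun w => F w + single (0 : Fin (n + 1)) w := by
    have := hDF.add (single (0 : Fin (n + 1)))
    convert this using 2
    ring
  have hdeg := hDA.deg_eq
  set k : ℤ := (d : ℤ) - deg D with hk
  have hk0 : 0 ≤ k := by omega
  have hB : Effective fun w => k * single (0 : Fin (n + 1)) w :=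
    fun w => mul_nonneg hk0 (single_eff _ w)
  refine h (fun w => (F w + single (0 : Fin (n + 1)) w) + k * single (0 : Fin (n + 1)) w)
    (fun w => add_nonneg (hA w) (hB w)) ?_ ((hD.congr hDA).add_eff hB)
  have h1 : deg (fun w => (F w + single (0 : Fin (n + 1)) w) + k * single (0 : Fin (n + 1)) w)
      = deg (fun w => F w + single (0 : Fin (n + 1)) w)
        + deg (fun w => k * single (0 : Fin (n + 1)) w) := Finset.sum_add_distrib
  have h2 : deg (fun w => k * single (0 : Fin (n + 1)) w) = k * deg (single (0 : Fin (n + 1))) := by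
    simp only [deg, Finset.mul_sum]
  rw [h1, h2, deg_single, ← hdeg, hk]
  ring

/-- Walk through a list of divisors together with a list of certificates. -/
def checkAll {n : ℕ} (G : MGraph (Fin n)) : List (List ℕ) → List (Fin n × List ℤ × List ℕ) → Bool
  | [], _ => true
  | _ :: _, [] => false
  | D :: Ds, c :: cs =>
    (decide (badCert G (fun i => ((D.getD i 0 : ℕ) : ℤ)) c)) && checkAll G Ds cs

theorem exists_of_checkAll {n : ℕ} (G : MGraph (Fin n)) :
    ∀ (Ds : List (List ℕ)) (cs : List (Fin n × List ℤ × List ℕ)), checkAll G Ds cs = true →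
      ∀ D ∈ Ds, ∃ c, badCert G (fun i => ((D.getD i 0 : ℕ) : ℤ)) c
  | [], _, _ => fun D hD => by simp at hD
  | _ :: _, [], h => by simp [checkAll] at h
  | D :: Ds, c :: cs, h => by
    simp only [checkAll, Bool.and_eq_true, decide_eq_true_eq] at h
    intro D' hD'
    rcases List.mem_cons.1 hD' with rfl | hD'
    · exact ⟨c, h.1⟩
    · exact exists_of_checkAll G Ds cs h.2 D' hD'

theorem deg_gt_of_checkAll {n : ℕ} (G : MGraph (Fin (n + 1))) (d : ℕ)
    (cs : List (Fin (n + 1) × List ℤ × List ℕ))
    (h : checkAll G (comps (n + 1) d) cs = true)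
    (D : Fin (n + 1) → ℤ) (hD : G.RankGE D 1) : (d : ℤ) < deg D := by
  refine G.deg_gt_of_no_eff d (fun D hD hd => ?_) D hD
  obtain ⟨l, hl, rfl⟩ := exists_comp D d hD hd
  obtain ⟨c, hc⟩ := exists_of_checkAll G _ cs h l hl
  exact not_rankGE_of_badCert G _ c hc

/-- The gonality is determined by an example and a lower bound. -/
theorem gon_eq {V : Type} [Fintype V] (G : MGraph V) (r d : ℕ)
    (hex : ∃ D : V → ℤ, deg D = (d : ℤ) ∧ G.RankGE D r)
    (hlow : ∀ D : V → ℤ, G.RankGE D r → (d : ℤ) ≤ deg D) : G.gon r = d := by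
  have hmem : d ∈ {d : ℕ | ∃ D : V → ℤ, deg D = (d : ℤ) ∧ G.RankGE D r} := hex
  refine le_antisymm (Nat.sInf_le hmem) ?_
  obtain ⟨D, hD, hr⟩ := Nat.sInf_mem (⟨d, hmem⟩ : Set.Nonempty _)
  have h1 := hlow D hr
  rw [hD] at h1
  exact_mod_cast h1

theorem gon_le {V : Type} [Fintype V] (G : MGraph V) (r d : ℕ)
    (hex : ∃ D : V → ℤ, deg D = (d : ℤ) ∧ G.RankGE D r) : G.gon r ≤ d := Nat.sInf_le hex

end MGraph

end Pool.Agent.Q254.Chip
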