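import Mathlib
import Pool.Agent.Q254.ChipDef

/-!
# Gonality, trees and Cartesian products of multigraphs: definitions (helper254)
-/

namespace Pool.Agent.Q254.Chip.MGraph

open Finset

/-- The Cartesian product of two multigraphs, multiplicities being kept. -/
def box {V W : Type} [DecidableEq V] [DecidableEq W] (G : MGraph V) (H : MGraph W) :
    MGraph (V × W) where
  m p q := (if p.1 = q.1 then H.m p.2 q.2 else 0) + (if p.2 = q.2 then G.m p.1 q.1 else 0)
  symm p q := by
    simp only [eq_comm (a := p.1), eq_comm (a := p.2), H.symm p.2, G.symm p.1]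
  loopless p := by simp [G.loopless, H.loopless]

/-- A tree: a connected multigraph with one edge fewer than vertices. -/
def IsTree {V : Type} [Fintype V] (G : MGraph V) : Prop :=
  G.Connected ∧ G.numEdges + 1 = Fintype.card V

/-- `D` has positive rank: for every vertex `v`, the divisor `D - v` is equivalent to an effective
divisor. -/
def PositiveRank {V : Type} [Fintype V] [DecidableEq V] (G : MGraph V) (D : V → ℤ) : Prop :=
  ∀ v : V, ∃ F : V → ℤ, Effective F ∧ G.LinEquiv (fun w => D w - if w = v then 1 else 0) F

/-- The gonality: the minimum degree of an effective divisor of positive rank. -/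
noncomputable def gonality {V : Type} [Fintype V] [DecidableEq V] (G : MGraph V) : ℕ :=
  sInf {d : ℕ | ∃ D : V → ℤ, Effective D ∧ deg D = (d : ℤ) ∧ G.PositiveRank D}

end Pool.Agent.Q254.Chip.MGraph
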