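import Mathlib

/-!
# Tilting one colour class of a random proper colouring

Let `G` be a graph on `n` vertices, `n ≤ L`, and let `c` be one of the `L` colours.  For real `z`
let `Z(z) = ∑_f z ^ |f⁻¹(c)|`, the sum over the proper `L`-colourings.  So `Z(1) = P(G, L)` and
`Z(0) = P(G, L - 1)`.  For a clique `K` with `ω` vertices and `0 ≤ z ≤ 1` we show
`Z'(z) / Z(z) ≥ ω / (L - ω + ω z) + (n - ω) / (L - 1 + z)`, hence
`P(G, L - 1) / P(G, L) ≤ (1 - ω / L) (1 - 1 / L) ^ (n - ω)`.

The differential inequality follows from exchanging the colour `c` with another colour `b` in the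
colourings of `G - k` for a vertex `k` of `K`, and from Bernoulli's inequality applied to the sizes
of the colour classes.
-/

set_option autoImplicit false

open Finset

namespace Pool.Agent.Q254.Chrom

universe u

variable {V : Type u} [Fintype V] [DecidableEq V] (G : SimpleGraph V) {L : ℕ} (c : Fin L)

open Classical in
/-- The proper `L`-colourings of `G`. -/
noncomputable def Col (L : ℕ) : Finset (V → Fin L) :=
  univ.filter (fun f => ∀ u v, G.Adj u v → f u ≠ f v)

/-- Size of the colour class of `b`. -/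
def num (f : V → Fin L) (b : Fin L) : ℕ := (univ.filter (fun v => f v = b)).card

/-- Size of the colour class of `b` without the vertex `k`. -/
def off (k : V) (f : V → Fin L) (b : Fin L) : ℕ := (univ.filter (fun v => v ≠ k ∧ f v = b)).card

open Classical in
/-- Maps that give `k` the colour `c` and are proper colourings away from `k`. -/
noncomputable def Xs (k : V) : Finset (V → Fin L) :=
  univ.filter (fun f => f k = c ∧ ∀ u v, u ≠ k → v ≠ k → G.Adj u v → f u ≠ f v)

/-- Exchange the colours `c` and `b` away from `k`. -/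
def sw (k : V) (b : Fin L) (f : V → Fin L) : V → Fin L :=
  fun v => if v = k then c else Equiv.swap c b (f v)

theorem mem_Col {f : V → Fin L} : f ∈ Col G L ↔ ∀ u v, G.Adj u v → f u ≠ f v := by
  simp [Col]

theorem mem_Xs {k : V} {f : V → Fin L} :
    f ∈ Xs G c k ↔ f k = c ∧ ∀ u v, u ≠ k → v ≠ k → G.Adj u v → f u ≠ f v := by
  simp [Xs]

omit [Fintype V] in
theorem sw_sw {k : V} {b : Fin L} {f : V → Fin L} (h : f k = c) :
    sw c k b (sw c k b f) = f := by
  funext v
  by_cases hv : v = k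
  · subst hv; simp [sw, h]
  · simp [sw, hv]

theorem sw_mem {k : V} {b : Fin L} {f : V → Fin L} (h : f ∈ Xs G c k) : sw c k b f ∈ Xs G c k := by
  rw [mem_Xs] at h ⊢
  refine ⟨by simp [sw], fun u v hu hv huv => ?_⟩
  simp only [sw, hu, hv, if_false]
  intro he
  exact h.2 u v hu hv huv ((Equiv.swap c b).injective he)

theorem off_sw (k : V) (b : Fin L) (f : V → Fin L) : off k (sw c k b f) c = off k f b := by
  unfold off
  refine congrArg card (filter_congr fun v _ => ?_)
  constructor
  · rintro ⟨h1, h2⟩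
    refine ⟨h1, ?_⟩
    have h3 : Equiv.swap c b (f v) = c := by simpa [sw, h1] using h2
    have := congrArg (Equiv.swap c b) h3
    simpa using this
  · rintro ⟨h1, h2⟩
    exact ⟨h1, by simp [sw, h1, h2]⟩

theorem swap_sum (K : Finset V) (k : V) (b : Fin L) (z : ℝ) :
    ∑ f ∈ (Xs G c k).filter (fun f => ∀ v ∈ K, v ≠ k → f v ≠ c ∧ f v ≠ b), z ^ off k f c
      = ∑ f ∈ (Xs G c k).filter (fun f => ∀ v ∈ K, v ≠ k → f v ≠ c ∧ f v ≠ b), z ^ off k f b := by
  symm
  have key : ∀ f ∈ (Xs G c k).filter (fun f => ∀ v ∈ K, v ≠ k → f v ≠ c ∧ f v ≠ b),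
      sw c k b f ∈ (Xs G c k).filter (fun f => ∀ v ∈ K, v ≠ k → f v ≠ c ∧ f v ≠ b) := by
    intro f hf
    rw [mem_filter] at hf ⊢
    refine ⟨sw_mem G c hf.1, fun v hv hvk => ?_⟩
    obtain ⟨h1, h2⟩ := hf.2 v hv hvk
    simp only [sw, hvk, if_false]
    rw [Equiv.swap_apply_of_ne_of_ne h1 h2]
    exact ⟨h1, h2⟩
  refine Finset.sum_nbij' (sw c k b) (sw c k b) key key ?_ ?_ ?_
  · intro f hf
    rw [mem_filter, mem_Xs] at hf
    exact sw_sw c hf.1.1
  · intro f hf
    rw [mem_filter, mem_Xs] at hf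
    exact sw_sw c hf.1.1
  · intro f _
    rw [off_sw]

/-- The colours different from `c` and not used on `K` away from `k`. -/
def B (K : Finset V) (k : V) (f : V → Fin L) : Finset (Fin L) :=
  univ.filter (fun b => b ≠ c ∧ ∀ v ∈ K, v ≠ k → f v ≠ b)

theorem card_B {K : Finset V} {k : V} (hK : ∀ u ∈ K, ∀ v ∈ K, u ≠ v → G.Adj u v) (hk : k ∈ K)
    {f : V → Fin L} (hf : f ∈ Xs G c k) (hc : ∀ v ∈ K, v ≠ k → f v ≠ c) :
    (B c K k f).card + K.card = L := by
  rw [mem_Xs] at hf
  have hB : B c K k f = univ \ insert c ((K.erase k).image f) := by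
    ext b
    simp only [B, mem_filter, mem_univ, true_and, mem_sdiff, mem_insert, mem_image, mem_erase]
    constructor
    · rintro ⟨h1, h2⟩ (h | ⟨v, ⟨h3, h4⟩, h5⟩)
      · exact h1 h
      · exact h2 v h4 h3 h5
    · intro h
      refine ⟨fun hb => h (Or.inl hb), fun v hv hvk hb => h (Or.inr ⟨v, ⟨hvk, hv⟩, hb⟩)⟩
  have hinj : Set.InjOn f (K.erase k : Finset V) := by
    intro u hu v hv huv
    simp only [coe_erase, Set.mem_sdiff, mem_coe, Set.mem_singleton_iff] at hu hv
    by_contra hne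
    exact hf.2 u v hu.2 hv.2 (hK u hu.1 v hv.1 hne) huv
  have hci : c ∉ (K.erase k).image f := by
    simp only [mem_image, mem_erase, not_exists, not_and]
    rintro v ⟨h1, h2⟩ h3
    exact hc v h2 h1 h3
  have h1 : (insert c ((K.erase k).image f)).card = K.card := by
    rw [card_insert_of_notMem hci, card_image_of_injOn hinj, card_erase_of_mem hk]
    have : 0 < K.card := card_pos.mpr ⟨k, hk⟩
    omega
  rw [hB]
  have h2 := card_sdiff_add_card_inter (univ : Finset (Fin L)) (insert c ((K.erase k).image f))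
  rw [univ_inter, h1] at h2
  simpa using h2

theorem sum_off (k : V) (f : V → Fin L) : ∑ b, off k f b + 1 = Fintype.card V := by
  have h1 : ∑ b, off k f b = (univ.erase k).card := by
    unfold off
    rw [card_eq_sum_card_fiberwise (f := f) (t := univ) (fun _ _ => mem_coe.mpr (mem_univ _))]
    refine sum_congr rfl fun b _ => ?_
    congr 1
    ext v
    simp [mem_filter, mem_erase]
  rw [h1, card_erase_of_mem (mem_univ k)]
  have : 0 < (univ : Finset V).card := card_pos.mpr ⟨k, mem_univ k⟩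
  have h2 : (univ : Finset V).card = Fintype.card V := rfl
  omega

theorem sum_off_B {K : Finset V} {k : V} (hK : ∀ u ∈ K, ∀ v ∈ K, u ≠ v → G.Adj u v) (hk : k ∈ K)
    {f : V → Fin L} (hf : f ∈ Xs G c k) (hc : ∀ v ∈ K, v ≠ k → f v ≠ c)
    (hV : Fintype.card V ≤ L) (h1 : 1 ≤ off k f c) :
    ∑ b ∈ B c K k f, off k f b ≤ (B c K k f).card := by
  have hcard := card_B G c hK hk hf hc
  have hsum := sum_off k f
  have hsplit : ∑ b ∈ B c K k f, off k f b + ∑ b ∈ univ \ B c K k f, off k f b
      = ∑ b, off k f b := by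
    rw [add_comm]
    exact sum_sdiff (subset_univ _)
  have hlow : K.card ≤ ∑ b ∈ univ \ B c K k f, off k f b := by
    have h2 : (univ \ B c K k f).card = K.card := by
      have h3 := card_sdiff_add_card_inter (univ : Finset (Fin L)) (B c K k f)
      rw [univ_inter] at h3
      have h4 : (univ : Finset (Fin L)).card = L := by simp
      omega
    rw [← h2, card_eq_sum_ones]
    refine sum_le_sum fun b hb => ?_
    simp only [B, mem_sdiff, mem_univ, true_and, mem_filter, not_and, not_forall] at hb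
    by_cases hbc : b = c
    · rw [hbc]; exact h1
    · obtain ⟨v, hv, hvk, hvb⟩ := hb hbc
      rw [not_not] at hvb
      unfold off
      refine card_pos.mpr ⟨v, ?_⟩
      simp [hvk, hvb]
  omega

theorem bad_le {K : Finset V} {k : V} (hK : ∀ u ∈ K, ∀ v ∈ K, u ≠ v → G.Adj u v) (hk : k ∈ K)
    {f : V → Fin L} (hf : f ∈ Xs G c k) (hc : ∀ v ∈ K, v ≠ k → f v ≠ c)
    (hV : Fintype.card V ≤ L) (h1 : 1 ≤ off k f c) {z : ℝ} (hz0 : 0 ≤ z) (hz1 : z ≤ 1) :
    ∑ b ∈ B c K k f, (z ^ off k f c - z ^ off k f b) ≤ 0 := by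
  have hs := sum_off_B G c hK hk hf hc hV h1
  rw [sum_sub_distrib, sub_nonpos]
  calc ∑ b ∈ B c K k f, z ^ off k f c ≤ ∑ b ∈ B c K k f, z := by
        refine sum_le_sum fun b _ => ?_
        exact pow_le_of_le_one hz0 hz1 (by omega)
    _ = (B c K k f).card * z := by rw [sum_const, nsmul_eq_mul]
    _ ≤ ∑ b ∈ B c K k f, (1 + (off k f b : ℝ) * (z - 1)) := by
        rw [sum_add_distrib, sum_const, ← sum_mul, nsmul_eq_mul, mul_one]
        have hs' : ∑ b ∈ B c K k f, (off k f b : ℝ) ≤ (B c K k f).card := by exact_mod_cast hs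
        nlinarith
    _ ≤ ∑ b ∈ B c K k f, z ^ off k f b := by
        refine sum_le_sum fun b _ => ?_
        have := one_add_mul_le_pow (a := z - 1) (by linarith) (off k f b)
        simpa using this

theorem sum_Y_eq_zero (K : Finset V) (k : V) (z : ℝ) :
    ∑ f ∈ (Xs G c k).filter (fun f => ∀ v ∈ K, v ≠ k → f v ≠ c),
      ∑ b ∈ B c K k f, (z ^ off k f c - z ^ off k f b) = 0 := by
  rw [Finset.sum_comm' (s' := fun b => (Xs G c k).filter
      (fun f => ∀ v ∈ K, v ≠ k → f v ≠ c ∧ f v ≠ b)) (t' := univ.erase c)]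
  · refine sum_eq_zero fun b _ => ?_
    rw [sum_sub_distrib, swap_sum G c K k b z, sub_self]
  · intro f b
    simp only [mem_filter, B, mem_univ, true_and, mem_erase, and_true]
    constructor
    · rintro ⟨⟨h1, h2⟩, h3, h4⟩
      exact ⟨⟨h1, fun v hv hvk => ⟨h2 v hv hvk, h4 v hv hvk⟩⟩, h3⟩
    · rintro ⟨⟨h1, h2⟩, h3⟩
      exact ⟨⟨h1, fun v hv hvk => (h2 v hv hvk).1⟩, h3, fun v hv hvk => (h2 v hv hvk).2⟩

theorem good_nonneg {K : Finset V} {k : V} (hK : ∀ u ∈ K, ∀ v ∈ K, u ≠ v → G.Adj u v) (hk : k ∈ K)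
    (hV : Fintype.card V ≤ L) {z : ℝ} (hz0 : 0 ≤ z) (hz1 : z ≤ 1) :
    0 ≤ ∑ f ∈ (Col G L).filter (fun f => f k = c),
      ∑ b ∈ B c K k f, (z ^ off k f c - z ^ off k f b) := by
  classical
  have h0 := sum_Y_eq_zero G c K k z
  rw [← sum_filter_add_sum_filter_not _ (fun f => ∀ u v, G.Adj u v → f u ≠ f v)] at h0
  have hg : ((Xs G c k).filter (fun f => ∀ v ∈ K, v ≠ k → f v ≠ c)).filter
      (fun f => ∀ u v, G.Adj u v → f u ≠ f v) = (Col G L).filter (fun f => f k = c) := by
    ext f
    simp only [mem_filter, mem_Xs, mem_Col]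
    constructor
    · rintro ⟨⟨⟨h1, _⟩, _⟩, h4⟩
      exact ⟨h4, h1⟩
    · rintro ⟨h1, h2⟩
      refine ⟨⟨⟨h2, fun u v _ _ h => h1 u v h⟩, fun v hv hvk he => ?_⟩, h1⟩
      exact h1 v k (hK v hv k hk hvk) (by rw [he, h2])
  rw [hg] at h0
  have hb : ∑ f ∈ ((Xs G c k).filter (fun f => ∀ v ∈ K, v ≠ k → f v ≠ c)).filter
      (fun f => ¬ ∀ u v, G.Adj u v → f u ≠ f v),
      ∑ b ∈ B c K k f, (z ^ off k f c - z ^ off k f b) ≤ 0 := by
    refine sum_nonpos fun f hf => ?_
    simp only [mem_filter] at hf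
    obtain ⟨⟨h1, h2⟩, h3⟩ := hf
    refine bad_le G c hK hk h1 h2 hV ?_ hz0 hz1
    rw [mem_Xs] at h1
    push Not at h3
    obtain ⟨u, v, huv, he⟩ := h3
    by_cases hu : u = k
    · subst hu
      have hvu : v ≠ u := huv.ne'
      refine card_pos.mpr ⟨v, ?_⟩
      simp [hvu, ← he, h1.1]
    · by_cases hv : v = k
      · subst hv
        refine card_pos.mpr ⟨u, ?_⟩
        simp [hu, he, h1.1]
      · exact absurd he (h1.2 u v hu hv huv)
  linarith

/-- Weighted number of the colourings that give `k` the colour `c`. -/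
noncomputable def Zp (k : V) (z : ℝ) : ℝ :=
  ∑ f ∈ (Col G L).filter (fun f => f k = c), z ^ off k f c

/-- Weighted number of the colourings that do not use `c` on `K`. -/
noncomputable def Zo (K : Finset V) (z : ℝ) : ℝ :=
  ∑ f ∈ (Col G L).filter (fun f => ∀ v ∈ K, f v ≠ c), z ^ num f c

/-- Weighted number of all colourings. -/
noncomputable def Zf (z : ℝ) : ℝ := ∑ f ∈ Col G L, z ^ num f c

theorem comp_mem {b : Fin L} {f : V → Fin L} (h : f ∈ Col G L) :
    (fun v => Equiv.swap c b (f v)) ∈ Col G L := by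
  rw [mem_Col] at h ⊢
  intro u v huv he
  exact h u v huv ((Equiv.swap c b).injective he)

theorem sum_B_eq (K : Finset V) {k : V} (hk : k ∈ K) (z : ℝ) :
    ∑ f ∈ (Col G L).filter (fun f => f k = c), ∑ b ∈ B c K k f, z ^ off k f b = Zo G c K z := by
  unfold Zo
  rw [sum_sigma']
  refine Finset.sum_nbij' (fun p => fun v => Equiv.swap c p.2 (p.1 v))
    (fun f => ⟨fun v => Equiv.swap c (f k) (f v), f k⟩) ?_ ?_ ?_ ?_ ?_
  · rintro ⟨f, b⟩ h
    simp only [mem_sigma, mem_filter, B, mem_univ, true_and] at h ⊢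
    obtain ⟨⟨h1, h2⟩, h3, h4⟩ := h
    refine ⟨comp_mem G c h1, fun v hv he => ?_⟩
    have h5 : f v = b := by
      have := congrArg (Equiv.swap c b) he
      simpa using this
    by_cases hvk : v = k
    · subst hvk
      exact h3 (h5.symm.trans h2)
    · exact h4 v hv hvk h5
  · intro f h
    simp only [mem_sigma, mem_filter, B, mem_univ, true_and] at h ⊢
    obtain ⟨h1, h2⟩ := h
    refine ⟨⟨comp_mem G c h1, by simp⟩, h2 k hk, fun v hv hvk he => ?_⟩
    have h5 : f v = c := by
      have := congrArg (Equiv.swap c (f k)) he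
      simpa using this
    exact h2 v hv h5
  · rintro ⟨f, b⟩ h
    simp only [mem_sigma, mem_filter, B, mem_univ, true_and] at h
    obtain ⟨⟨h1, h2⟩, h3, h4⟩ := h
    have h6 : Equiv.swap c b (f k) = b := by rw [h2]; simp
    simp [h6]
  · intro f _
    funext v
    simp
  · rintro ⟨f, b⟩ h
    simp only [mem_sigma, mem_filter, B, mem_univ, true_and] at h
    obtain ⟨⟨h1, h2⟩, h3, h4⟩ := h
    have : off k f b = num (fun v => Equiv.swap c b (f v)) c := by
      unfold off num
      refine congrArg card (filter_congr fun v _ => ?_)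
      constructor
      · rintro ⟨h5, h6⟩
        simp [h6]
      · intro h5
        have h6 : f v = b := by
          have := congrArg (Equiv.swap c b) h5
          simpa using this
        refine ⟨fun hvk => ?_, h6⟩
        subst hvk
        exact h3 (h6.symm.trans h2)
    simp only [this]

theorem Zp_ge {K : Finset V} {k : V} (hK : ∀ u ∈ K, ∀ v ∈ K, u ≠ v → G.Adj u v) (hk : k ∈ K)
    (hV : Fintype.card V ≤ L) {z : ℝ} (hz0 : 0 ≤ z) (hz1 : z ≤ 1) :
    Zo G c K z ≤ ((L : ℝ) - K.card) * Zp G c k z := by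
  have h := good_nonneg G c hK hk hV hz0 hz1
  simp only [sum_sub_distrib] at h
  rw [sum_B_eq G c K hk z] at h
  have h2 : ∑ f ∈ (Col G L).filter (fun f => f k = c), ∑ b ∈ B c K k f, z ^ off k f c
      = ((L : ℝ) - K.card) * Zp G c k z := by
    unfold Zp
    rw [mul_sum]
    refine sum_congr rfl fun f hf => ?_
    rw [sum_const, nsmul_eq_mul]
    congr 1
    rw [mem_filter, mem_Col] at hf
    have hX : f ∈ Xs G c k := (mem_Xs G c).mpr ⟨hf.2, fun u v _ _ huv => hf.1 u v huv⟩
    have hc : ∀ v ∈ K, v ≠ k → f v ≠ c := fun v hv hvk he =>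
      hf.1 v k (hK v hv k hk hvk) (by rw [he, hf.2])
    have := card_B G c hK hk hX hc
    have h3 : (((B c K k f).card + K.card : ℕ) : ℝ) = L := by exact_mod_cast this
    push_cast at h3
    linarith
  linarith

theorem num_eq_off {k : V} {f : V → Fin L} (h : f k = c) : num f c = off k f c + 1 := by
  unfold num off
  have : univ.filter (fun v => f v = c) = insert k (univ.filter (fun v => v ≠ k ∧ f v = c)) := by
    ext v
    simp only [mem_filter, mem_univ, true_and, mem_insert]
    constructor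
    · intro hv
      by_cases hvk : v = k
      · exact Or.inl hvk
      · exact Or.inr ⟨hvk, hv⟩
    · rintro (hv | hv)
      · rw [hv, h]
      · exact hv.2
  rw [this, card_insert_of_notMem (by simp)]

theorem Zf_split {K : Finset V} (hK : ∀ u ∈ K, ∀ v ∈ K, u ≠ v → G.Adj u v) (z : ℝ) :
    Zf G c z = Zo G c K z + z * ∑ k ∈ K, Zp G c k z := by
  have h1 : z * ∑ k ∈ K, Zp G c k z
      = ∑ f ∈ Col G L, ∑ k ∈ K.filter (fun k => f k = c), z ^ num f c := by
    rw [mul_sum]
    rw [Finset.sum_comm' (s' := fun k => (Col G L).filter (fun f => f k = c)) (t' := K)]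
    · refine sum_congr rfl fun k _ => ?_
      unfold Zp
      rw [mul_sum]
      refine sum_congr rfl fun f hf => ?_
      rw [mem_filter] at hf
      rw [num_eq_off c hf.2, pow_succ, mul_comm]
    · intro f k
      simp only [mem_filter]
      tauto
  rw [h1]
  unfold Zf Zo
  rw [sum_filter, ← sum_add_distrib]
  refine sum_congr rfl fun f hf => ?_
  rw [mem_Col] at hf
  by_cases h : ∀ v ∈ K, f v ≠ c
  · rw [if_pos h, filter_eq_empty_iff.mpr (fun v hv => h v hv)]
    simp
  · rw [if_neg h]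
    push Not at h
    obtain ⟨k, hk, hkc⟩ := h
    have : K.filter (fun k => f k = c) = {k} := by
      ext v
      simp only [mem_filter, mem_singleton]
      constructor
      · rintro ⟨h2, h3⟩
        by_contra hne
        exact hf v k (hK v h2 k hk hne) (by rw [h3, hkc])
      · rintro rfl
        exact ⟨hk, hkc⟩
    rw [this]
    simp

theorem Zf_le_clique {K : Finset V} (hK : ∀ u ∈ K, ∀ v ∈ K, u ≠ v → G.Adj u v)
    (hV : Fintype.card V ≤ L) {z : ℝ} (hz0 : 0 ≤ z) (hz1 : z ≤ 1) :
    (K.card : ℝ) * Zf G c z ≤ ((L : ℝ) - K.card + K.card * z) * ∑ k ∈ K, Zp G c k z := by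
  have h1 := Zf_split G c hK z
  have h2 : (K.card : ℝ) * Zo G c K z ≤ ((L : ℝ) - K.card) * ∑ k ∈ K, Zp G c k z := by
    rw [mul_sum, ← nsmul_eq_mul, ← sum_const]
    exact sum_le_sum fun k hk => Zp_ge G c hK hk hV hz0 hz1
  rw [h1]
  nlinarith

theorem Zf_le_vertex (v : V) (hV : Fintype.card V ≤ L) {z : ℝ} (hz0 : 0 ≤ z) (hz1 : z ≤ 1) :
    Zf G c z ≤ ((L : ℝ) - 1 + z) * Zp G c v z := by
  have h := Zf_le_clique G c (K := {v}) (by
    intro u hu w hw hne
    rw [mem_singleton] at hu hw
    exact absurd (hu.trans hw.symm) hne) hV hz0 hz1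
  simpa using h

theorem sum_Zp (z : ℝ) : ∑ v, Zp G c v z = ∑ f ∈ Col G L, (num f c : ℝ) * z ^ (num f c - 1) := by
  unfold Zp
  rw [Finset.sum_comm' (s' := fun f => univ.filter (fun v => f v = c)) (t' := Col G L)]
  · refine sum_congr rfl fun f _ => ?_
    rw [sum_congr rfl (g := fun _ => z ^ (num f c - 1))]
    · rw [sum_const, nsmul_eq_mul]
      rfl
    · intro v hv
      simp only [mem_filter, mem_univ, true_and] at hv
      rw [num_eq_off c hv, Nat.add_sub_cancel]
  · intro v f
    simp only [mem_filter, mem_univ, true_and]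
    tauto

theorem hasDerivAt_Zf (z : ℝ) : HasDerivAt (Zf G c) (∑ v, Zp G c v z) z := by
  rw [sum_Zp]
  unfold Zf
  exact HasDerivAt.fun_sum fun f _ => by simpa using hasDerivAt_pow (num f c) z

theorem Zf_nonneg {z : ℝ} (hz : 0 ≤ z) : 0 ≤ Zf G c z := sum_nonneg fun _ _ => pow_nonneg hz _

theorem Zp_nonneg (v : V) {z : ℝ} (hz : 0 ≤ z) : 0 ≤ Zp G c v z :=
  sum_nonneg fun _ _ => pow_nonneg hz _

/-- The comparison function. -/
noncomputable def Dn (L : ℕ) (w m : ℕ) (z : ℝ) : ℝ := ((L : ℝ) - w + w * z) * ((L : ℝ) - 1 + z) ^ m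

theorem hasDerivAt_Dn (L w m : ℕ) (z : ℝ) : HasDerivAt (Dn L w m)
    (w * ((L : ℝ) - 1 + z) ^ m + ((L : ℝ) - w + w * z) * (m * ((L : ℝ) - 1 + z) ^ (m - 1))) z := by
  have h1 : HasDerivAt (fun z : ℝ => (L : ℝ) - w + w * z) w z := by
    simpa using ((hasDerivAt_id z).const_mul (w : ℝ)).const_add ((L : ℝ) - w)
  have h2 : HasDerivAt (fun z : ℝ => (L : ℝ) - 1 + z) 1 z := by
    simpa using (hasDerivAt_id z).const_add ((L : ℝ) - 1)
  have h3 : HasDerivAt (fun z : ℝ => ((L : ℝ) - 1 + z) ^ m)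
      (m * ((L : ℝ) - 1 + z) ^ (m - 1)) z := by simpa using h2.fun_pow m
  exact h1.mul h3

theorem deriv_ineq {K : Finset V} (hK : ∀ u ∈ K, ∀ v ∈ K, u ≠ v → G.Adj u v)
    (hV : Fintype.card V ≤ L) {m : ℕ} (hm : K.card + m = Fintype.card V)
    {z : ℝ} (hz0 : 0 < z) (hz1 : z ≤ 1) :
    Zf G c z * (K.card * ((L : ℝ) - 1 + z) ^ m
        + ((L : ℝ) - K.card + K.card * z) * (m * ((L : ℝ) - 1 + z) ^ (m - 1)))
      ≤ (∑ v, Zp G c v z) * Dn L K.card m z := by
  have hL : (1 : ℝ) ≤ L := by
    have : 0 < L := c.pos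
    exact_mod_cast this
  have hl : 0 < (L : ℝ) - 1 + z := by linarith
  have hKL : (K.card : ℝ) ≤ L := by
    have : K.card ≤ L := (card_le_univ K).trans hV
    exact_mod_cast this
  have ha : 0 ≤ (L : ℝ) - K.card + K.card * z := by
    have : 0 ≤ (K.card : ℝ) * z := by positivity
    linarith
  have h1 := Zf_le_clique G c hK hV hz0.le hz1
  have hsum : ∑ v, Zp G c v z = ∑ v ∈ K, Zp G c v z + ∑ v ∈ univ \ K, Zp G c v z := by
    rw [add_comm]
    exact (sum_sdiff (subset_univ K)).symm
  have hcard : (univ \ K).card = m := by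
    have := card_sdiff_add_card_inter (univ : Finset V) K
    rw [univ_inter] at this
    have h4 : (univ : Finset V).card = Fintype.card V := rfl
    omega
  have h2 : (m : ℝ) * Zf G c z ≤ ((L : ℝ) - 1 + z) * ∑ v ∈ univ \ K, Zp G c v z := by
    rw [mul_sum, ← hcard, ← nsmul_eq_mul, ← sum_const]
    exact sum_le_sum fun v _ => Zf_le_vertex G c v hV hz0.le hz1
  have h3 : (m : ℝ) * ((L : ℝ) - 1 + z) ^ (m - 1) * Zf G c z
      ≤ ((L : ℝ) - 1 + z) ^ m * ∑ v ∈ univ \ K, Zp G c v z := by
    rcases Nat.eq_zero_or_pos m with h0 | h0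
    · subst h0
      simp only [Nat.cast_zero, zero_mul, pow_zero, one_mul]
      exact sum_nonneg fun v _ => Zp_nonneg G c v hz0.le
    · obtain ⟨m', rfl⟩ : ∃ m', m = m' + 1 := ⟨m - 1, by omega⟩
      have h5 : 0 ≤ ((L : ℝ) - 1 + z) ^ m' := by positivity
      have h6 := mul_le_mul_of_nonneg_left h2 h5
      rw [Nat.add_sub_cancel, pow_succ]
      calc _ = ((L : ℝ) - 1 + z) ^ m' * (((m' + 1 : ℕ) : ℝ) * Zf G c z) := by ring
        _ ≤ _ := h6
        _ = _ := by ring
  have h4 := mul_le_mul_of_nonneg_left h1 (pow_nonneg hl.le m)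
  have h5 := mul_le_mul_of_nonneg_left h3 ha
  unfold Dn
  rw [hsum]
  calc _ = ((L : ℝ) - 1 + z) ^ m * ((K.card : ℝ) * Zf G c z)
        + ((L : ℝ) - K.card + K.card * z)
          * ((m : ℝ) * ((L : ℝ) - 1 + z) ^ (m - 1) * Zf G c z) := by ring
    _ ≤ _ := add_le_add h4 h5
    _ = _ := by ring

theorem ratio_le {K : Finset V} (hK : ∀ u ∈ K, ∀ v ∈ K, u ≠ v → G.Adj u v)
    (hV : Fintype.card V ≤ L) {m : ℕ} (hm : K.card + m = Fintype.card V) (hL : 2 ≤ L)
    (hKL : K.card < L) :
    Zf G c 0 / Dn L K.card m 0 ≤ Zf G c 1 / Dn L K.card m 1 := by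
  have hL' : (2 : ℝ) ≤ L := by exact_mod_cast hL
  have hKL' : (K.card : ℝ) < L := by exact_mod_cast hKL
  have hpos : ∀ z : ℝ, 0 ≤ z → 0 < Dn L K.card m z := by
    intro z hz
    unfold Dn
    have h1 : 0 ≤ (K.card : ℝ) * z := by positivity
    have h2 : 0 < (L : ℝ) - K.card + K.card * z := by linarith
    have h3 : 0 < (L : ℝ) - 1 + z := by linarith
    positivity
  have hderiv : ∀ z : ℝ, 0 ≤ z → HasDerivAt (fun z => Zf G c z / Dn L K.card m z)
      (((∑ v, Zp G c v z) * Dn L K.card m z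
        - Zf G c z * (K.card * ((L : ℝ) - 1 + z) ^ m
          + ((L : ℝ) - K.card + K.card * z) * (m * ((L : ℝ) - 1 + z) ^ (m - 1))))
        / Dn L K.card m z ^ 2) z := fun z hz =>
    (hasDerivAt_Zf G c z).div (hasDerivAt_Dn L K.card m z) (hpos z hz).ne'
  have hmono : MonotoneOn (fun z => Zf G c z / Dn L K.card m z) (Set.Icc 0 1) := by
    refine monotoneOn_of_deriv_nonneg (convex_Icc 0 1) ?_ ?_ ?_
    · intro z hz
      exact (hderiv z hz.1).continuousAt.continuousWithinAt
    · intro z hz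
      rw [interior_Icc] at hz
      exact (hderiv z hz.1.le).differentiableAt.differentiableWithinAt
    · intro z hz
      rw [interior_Icc] at hz
      rw [(hderiv z hz.1.le).deriv]
      refine div_nonneg ?_ (sq_nonneg _)
      rw [sub_nonneg]
      exact deriv_ineq G c hK hV hm hz.1 hz.2.le
  exact hmono (Set.left_mem_Icc.mpr zero_le_one) (Set.right_mem_Icc.mpr zero_le_one) zero_le_one

theorem Zf_one : Zf G c 1 = (Col G L).card := by simp [Zf]

theorem Zf_zero (l : ℕ) : Zf G (Fin.last l) 0 = (Col G l).card := by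
  unfold Zf
  have h1 : ∀ f : V → Fin (l + 1), (0 : ℝ) ^ num f (Fin.last l)
      = if num f (Fin.last l) = 0 then 1 else 0 := by
    intro f
    split_ifs with h
    · rw [h, pow_zero]
    · exact zero_pow h
  simp only [h1]
  rw [sum_boole]
  congr 1
  symm
  refine card_bij (fun g _ => fun v => (g v).castSucc) ?_ ?_ ?_
  · intro g hg
    rw [mem_Col] at hg
    rw [mem_filter, mem_Col]
    refine ⟨fun u v huv he => hg u v huv (Fin.castSucc_injective l he), ?_⟩
    unfold num
    rw [card_eq_zero, filter_eq_empty_iff]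
    intro v _ he
    exact (Fin.castSucc_lt_last (g v)).ne he
  · intro g _ g' _ h
    funext v
    exact Fin.castSucc_injective l (congrFun h v)
  · intro f hf
    rw [mem_filter, mem_Col] at hf
    obtain ⟨h2, h3⟩ := hf
    unfold num at h3
    rw [card_eq_zero, filter_eq_empty_iff] at h3
    have h4 : ∀ v, ∃ j : Fin l, j.castSucc = f v := fun v =>
      Fin.exists_castSucc_eq.mpr (h3 (mem_univ v))
    choose g hg using h4
    refine ⟨g, ?_, funext hg⟩
    rw [mem_Col]
    intro u v huv he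
    exact h2 u v huv (by rw [← hg u, ← hg v, he])

theorem card_coloring (l : ℕ) : Nat.card (G.Coloring (Fin l)) = (Col G l).card := by
  have e : {f : V → Fin l // f ∈ Col G l} ≃ G.Coloring (Fin l) :=
    { toFun := fun f => SimpleGraph.Coloring.mk f.1 (fun {u v} huv => (mem_Col G).mp f.2 u v huv)
      invFun := fun C => ⟨fun v => C v, (mem_Col G).mpr fun u v huv => C.valid huv⟩
      left_inv := fun f => rfl
      right_inv := fun C => rfl }
  rw [← Nat.card_congr e, Nat.card_eq_fintype_card, Fintype.card_coe]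

/-- The bound for an arbitrary clique `K` of `G`. -/
theorem clique_bound {K : Finset V} (hK : ∀ u ∈ K, ∀ v ∈ K, u ≠ v → G.Adj u v) (lam : ℕ)
    (hV : Fintype.card V ≤ lam) :
    (Nat.card (G.Coloring (Fin (lam - 1))) : ℝ) / (Nat.card (G.Coloring (Fin lam)) : ℝ)
      ≤ (1 - (K.card : ℝ) / (lam : ℝ)) * (1 - 1 / (lam : ℝ)) ^ (Fintype.card V - K.card) := by
  have hKV : K.card ≤ Fintype.card V := card_le_univ K
  rcases Nat.eq_zero_or_pos lam with h0 | h0
  · subst h0
    have h1 : Fintype.card V = 0 := by omega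
    have h2 : K.card = 0 := by omega
    simp only [h1, h2]
    simp
    exact div_self_le_one _
  obtain ⟨l, rfl⟩ : ∃ l, lam = l + 1 := ⟨lam - 1, by omega⟩
  rw [Nat.add_sub_cancel]
  have hposl : (0 : ℝ) < ((l + 1 : ℕ) : ℝ) := by positivity
  by_cases hn : Fintype.card V = l + 1 ∧ (K.card = l + 1 ∨ l = 0)
  · -- no colouring with `l` colours
    have hempty : (Col G l) = ∅ := by
      rw [eq_empty_iff_forall_notMem]
      intro f hf
      rw [mem_Col] at hf
      rcases hn.2 with h1 | h1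
      · have hinj : Set.InjOn f (K : Set V) := by
          intro u hu v hv huv
          by_contra hne
          exact hf u v (hK u hu v hv hne) huv
        have := card_le_card_of_injOn f (fun _ _ => mem_coe.mpr (mem_univ _)) hinj
        simp at this
        omega
      · subst h1
        have : 0 < Fintype.card V := by omega
        obtain ⟨v⟩ := Fintype.card_pos_iff.mp this
        exact (f v).elim0
    rw [card_coloring, hempty]
    simp only [card_empty, Nat.cast_zero, zero_div]
    have h1 : (K.card : ℝ) / ((l + 1 : ℕ) : ℝ) ≤ 1 := by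
      rw [div_le_one hposl]
      exact_mod_cast hKV.trans hV
    have h2 : 1 / ((l + 1 : ℕ) : ℝ) ≤ 1 := by
      rw [div_le_one hposl]
      exact_mod_cast (by omega : 1 ≤ l + 1)
    have h3 : 0 ≤ 1 - 1 / ((l + 1 : ℕ) : ℝ) := by linarith
    have h4 : 0 ≤ 1 - (K.card : ℝ) / ((l + 1 : ℕ) : ℝ) := by linarith
    positivity
  · by_cases hl : l = 0
    · subst hl
      have h1 : Fintype.card V = 0 := by
        by_contra h2
        exact hn ⟨by omega, Or.inr rfl⟩
      have h2 : K.card = 0 := by omega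
      have hE : IsEmpty V := Fintype.card_eq_zero_iff.mp h1
      rw [card_coloring, card_coloring]
      have h3 : ∀ k, (Col G k) = univ := by
        intro k
        ext f
        simp only [mem_Col, mem_univ, iff_true]
        intro u
        exact isEmptyElim u
      rw [h3, h3, h1, h2]
      simp
    · have hKL : K.card < l + 1 := by
        by_contra h2
        exact hn ⟨by omega, Or.inl (by omega)⟩
      have hmain := ratio_le G (Fin.last l) hK hV (m := Fintype.card V - K.card) (by omega)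
        (by omega) hKL
      rw [Zf_zero, Zf_one] at hmain
      rw [card_coloring, card_coloring]
      have hlpos : (0 : ℝ) < l := by
        have : 0 < l := by omega
        exact_mod_cast this
      have hcol : 0 < (Col G (l + 1)).card := by
        refine card_pos.mpr ?_
        have hle : Fintype.card V ≤ Fintype.card (Fin (l + 1)) := by simpa using hV
        obtain ⟨e⟩ := Function.Embedding.nonempty_of_card_le hle
        exact ⟨e, (mem_Col G).mpr fun u v huv he => huv.ne (e.injective he)⟩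
      have hcol' : (0 : ℝ) < (Col G (l + 1)).card := by exact_mod_cast hcol
      have hKL' : (K.card : ℝ) < ((l + 1 : ℕ) : ℝ) := by exact_mod_cast hKL
      set m := Fintype.card V - K.card with hm
      have hD0 : Dn (l + 1) K.card m 0 = (((l + 1 : ℕ) : ℝ) - K.card) * (l : ℝ) ^ m := by
        unfold Dn; push_cast; ring
      have hD1 : Dn (l + 1) K.card m 1 = ((l + 1 : ℕ) : ℝ) * ((l + 1 : ℕ) : ℝ) ^ m := by
        unfold Dn; push_cast; ring
      rw [hD0, hD1] at hmain
      have hp0 : 0 < (((l + 1 : ℕ) : ℝ) - K.card) * (l : ℝ) ^ m := by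
        have : 0 < ((l + 1 : ℕ) : ℝ) - K.card := by linarith
        positivity
      have hp1 : 0 < ((l + 1 : ℕ) : ℝ) * ((l + 1 : ℕ) : ℝ) ^ m := by positivity
      rw [div_le_div_iff₀ hp0 hp1] at hmain
      have hrhs : (1 - (K.card : ℝ) / ((l + 1 : ℕ) : ℝ)) * (1 - 1 / ((l + 1 : ℕ) : ℝ)) ^ m
          = ((((l + 1 : ℕ) : ℝ) - K.card) * (l : ℝ) ^ m)
            / (((l + 1 : ℕ) : ℝ) * ((l + 1 : ℕ) : ℝ) ^ m) := by
        have h5 : 1 - 1 / ((l + 1 : ℕ) : ℝ) = (l : ℝ) / ((l + 1 : ℕ) : ℝ) := by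
          field_simp
          push_cast
          ring
        have h6 : 1 - (K.card : ℝ) / ((l + 1 : ℕ) : ℝ)
            = (((l + 1 : ℕ) : ℝ) - K.card) / ((l + 1 : ℕ) : ℝ) := by
          field_simp
        rw [h5, h6, div_pow, div_mul_div_comm]
      rw [hrhs, div_le_div_iff₀ hcol' hp1]
      linarith

end Pool.Agent.Q254.Chrom
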