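import Mathlib
import Pool.Agent.Q254.Chip

/-!
# A gonality-tight graph of genus 8 with gonality 5 (helper254)
-/

namespace Pool.Agent.Q254.D208ff

open Pool.Agent.Q254.Chip Pool.Agent.Q254.Chip.MGraph

set_option maxRecDepth 100000

/-- The adjacency matrix (edge multiplicities) of the counterexample. -/
def adj : List (List ℕ) :=
  [[0, 1, 0, 2, 1, 0, 0, 0],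
   [1, 0, 1, 1, 0, 0, 0, 0],
   [0, 1, 0, 0, 1, 1, 0, 0],
   [2, 1, 0, 0, 0, 1, 0, 0],
   [1, 0, 1, 0, 0, 0, 3, 0],
   [0, 0, 1, 1, 0, 0, 0, 2],
   [0, 0, 0, 0, 3, 0, 0, 1],
   [0, 0, 0, 0, 0, 2, 1, 0]]

/-- A connected multigraph with 8 vertices and 15 edges. -/
def G : MGraph (Fin 8) where
  m u v := (adj.getD u []).getD v 0
  symm := by decide
  loopless := by decide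

theorem connected : G.Connected := by
  have hz : ∀ v : Fin 8, G.simple.Reachable 0 v := by
    have e : ∀ u v : Fin 8, 0 < G.m u v → G.simple.Reachable u v :=
      fun u v h => SimpleGraph.Adj.reachable (show G.simple.Adj u v from h)
    have h1 := e 0 1 (by decide)
    have h3 := e 0 3 (by decide)
    have h4 := e 0 4 (by decide)
    have h2 := h1.trans (e 1 2 (by decide))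
    have h5 := h3.trans (e 3 5 (by decide))
    have h6 := h4.trans (e 4 6 (by decide))
    have h7 := h5.trans (e 5 7 (by decide))
    intro v
    fin_cases v
    · exact SimpleGraph.Reachable.refl _
    · exact h1
    · exact h2
    · exact h3
    · exact h4
    · exact h5
    · exact h6
    · exact h7
  exact { preconnected := fun u v => (hz u).symm.trans (hz v) }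

theorem genus_eq : G.genus = 8 := by
  have h : G.numEdges = 15 := by decide +kernel
  rw [genus, h]
  norm_num

/-- Scripts showing that a divisor of degree 6 has rank at least 2. -/
def scripts2 : List (List ℤ) :=
  [[1, 1, 0, 1, 0, 0, 0, 0],
   [1, 1, 0, 1, 0, 1, 0, 1],
   [0, 0, 0, 0, 0, 0, 0, 0],
   [1, 0, 0, 1, 0, 1, 0, 1],
   [3, 3, 2, 3, 1, 2, 0, 1],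
   [2, 2, 1, 2, 0, 1, 0, 1],
   [1, 1, 1, 0, 1, 1, 1, 1]]

/-- Scripts showing that a divisor of degree 8 has rank at least 3. -/
def scripts3 : List (List ℤ) :=
  [[0, 0, 0, 0, 1, 1, 2, 2],
   [0, 0, 1, 0, 2, 2, 3, 3],
   [1, 0, 1, 1, 2, 2, 3, 3],
   [0, 0, 1, 0, 2, 1, 3, 2],
   [0, 0, 1, 0, 1, 2, 2, 3],
   [0, 0, 0, 0, 0, 0, 1, 1],
   [0, 0, 0, 0, 0, 0, 0, 0],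
   [0, 0, 0, 0, 1, 0, 2, 1],
   [1, 1, 2, 0, 3, 2, 4, 3],
   [0, 0, 0, 0, 0, 1, 1, 2],
   [0, 1, 2, 1, 2, 3, 3, 4],
   [1, 0, 0, 1, 2, 2, 3, 3],
   [1, 0, 2, 1, 3, 3, 4, 4]]

theorem rank2 : G.RankGE (vec [2, 1, 0, 1, 0, 1, 0, 1]) 2 :=
  G.rankGE_of_scripts _ _ scripts2 (by decide +kernel)

theorem rank3 : G.RankGE (vec [0, 0, 0, 0, 0, 1, 4, 3]) 3 :=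
  G.rankGE_of_scripts _ _ scripts3 (by decide +kernel)

/-- Certificates that no effective divisor of degree 4 has positive rank. -/
def certs : List (Fin 8 × List ℤ × List ℕ) :=
  [(0, [0, 0, 0, 0, 0, 1, 0, 2], [0, 1, 7, 2, 3, 4, 5, 6]),
   (0, [0, 0, 0, 0, 0, 0, 0, 1], [0, 1, 2, 3, 4, 7, 5, 6]),
   (0, [0, 0, 0, 0, 0, 0, 0, 0], [0, 1, 2, 3, 4, 5, 6, 7]),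
   (0, [0, 0, 0, 0, 0, 0, 0, 0], [0, 1, 2, 3, 4, 5, 7, 6]),
   (0, [0, 0, 0, 0, 0, 0, 1, 0], [0, 1, 2, 3, 7, 4, 6, 5]),
   (0, [0, 0, 0, 0, 0, 0, 0, 1], [0, 1, 2, 3, 4, 7, 5, 6]),
   (0, [0, 0, 0, 0, 0, 0, 0, 0], [0, 1, 2, 3, 4, 5, 6, 7]),
   (0, [0, 0, 0, 0, 0, 0, 0, 0], [0, 1, 2, 3, 4, 5, 6, 7]),
   (0, [0, 0, 0, 0, 0, 0, 0, 0], [0, 1, 2, 3, 4, 5, 7, 6]),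
   (0, [0, 0, 0, 0, 0, 1, 0, 1], [0, 1, 7, 2, 3, 4, 5, 6]),
   (0, [0, 0, 0, 0, 0, 1, 0, 1], [0, 1, 7, 2, 3, 4, 5, 6]),
   (0, [0, 0, 0, 0, 0, 0, 0, 0], [0, 1, 2, 3, 4, 7, 5, 6]),
   (0, [0, 0, 0, 0, 0, 1, 0, 1], [0, 1, 6, 2, 3, 7, 4, 5]),
   (0, [0, 0, 0, 0, 0, 0, 0, 0], [0, 1, 2, 3, 4, 7, 5, 6]),
   (0, [0, 0, 0, 0, 0, 1, 0, 0], [0, 1, 7, 2, 3, 4, 5, 6]),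
   (0, [0, 0, 0, 0, 0, 0, 0, 1], [0, 1, 2, 3, 4, 7, 5, 6]),
   (0, [0, 0, 0, 0, 0, 0, 0, 0], [0, 1, 2, 3, 4, 5, 6, 7]),
   (0, [0, 0, 0, 0, 0, 0, 0, 0], [0, 1, 2, 3, 4, 5, 6, 7]),
   (0, [0, 0, 0, 0, 0, 0, 0, 0], [0, 1, 2, 3, 4, 5, 7, 6]),
   (0, [0, 0, 0, 0, 0, 0, 0, 0], [0, 1, 2, 3, 4, 5, 6, 7]),
   (0, [0, 0, 0, 0, 0, 0, 0, 0], [0, 1, 2, 3, 4, 5, 6, 7]),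
   (0, [0, 0, 0, 0, 0, 0, 0, 0], [0, 1, 2, 3, 4, 5, 6, 7]),
   (0, [0, 0, 0, 0, 0, 1, 0, 1], [0, 1, 5, 2, 6, 3, 7, 4]),
   (0, [0, 0, 0, 0, 0, 0, 0, 0], [0, 1, 2, 3, 4, 7, 5, 6]),
   (0, [0, 0, 0, 0, 0, 0, 0, 0], [0, 1, 2, 3, 4, 7, 5, 6]),
   (1, [0, 0, 0, 0, 1, 0, 1, 1], [2, 0, 6, 1, 3, 7, 4, 5]),
   (1, [0, 0, 0, 0, 1, 0, 1, 0], [3, 0, 4, 1, 5, 2, 6, 7]),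
   (1, [0, 0, 0, 0, 1, 0, 1, 0], [4, 0, 5, 1, 6, 2, 7, 3]),
   (0, [0, 0, 0, 0, 0, 0, 0, 0], [0, 1, 2, 3, 7, 4, 6, 5]),
   (1, [0, 0, 0, 0, 1, 0, 1, 0], [2, 0, 5, 1, 3, 6, 4, 7]),
   (6, [0, 0, 0, 0, 0, 0, 0, 0], [3, 4, 5, 6, 1, 7, 0, 2]),
   (0, [0, 0, 0, 0, 0, 0, 0, 0], [0, 1, 2, 3, 7, 4, 6, 5]),
   (1, [0, 0, 0, 0, 1, 0, 1, 0], [4, 0, 5, 1, 6, 2, 7, 3]),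
   (0, [0, 0, 0, 0, 0, 0, 0, 0], [0, 1, 2, 3, 7, 4, 6, 5]),
   (0, [0, 0, 0, 0, 0, 0, 0, 0], [0, 1, 2, 3, 7, 4, 6, 5]),
   (0, [0, 0, 0, 0, 0, 0, 0, 1], [0, 1, 2, 3, 4, 7, 5, 6]),
   (0, [0, 0, 0, 0, 0, 0, 0, 0], [0, 1, 2, 3, 4, 5, 6, 7]),
   (0, [0, 0, 0, 0, 0, 0, 0, 0], [0, 1, 2, 3, 4, 5, 6, 7]),
   (0, [0, 0, 0, 0, 0, 0, 0, 0], [0, 1, 2, 3, 4, 5, 7, 6]),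
   (0, [0, 0, 0, 0, 0, 0, 0, 0], [0, 1, 2, 3, 4, 5, 6, 7]),
   (0, [0, 0, 0, 0, 0, 0, 0, 0], [0, 1, 2, 3, 4, 5, 6, 7]),
   (0, [0, 0, 0, 0, 0, 0, 0, 0], [0, 1, 2, 3, 4, 5, 6, 7]),
   (0, [0, 0, 0, 0, 0, 1, 0, 1], [0, 1, 7, 2, 3, 4, 5, 6]),
   (0, [0, 0, 0, 0, 0, 0, 0, 0], [0, 1, 2, 3, 4, 7, 5, 6]),
   (0, [0, 0, 0, 0, 0, 0, 0, 0], [0, 1, 2, 3, 4, 7, 5, 6]),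
   (0, [0, 0, 0, 0, 0, 0, 0, 0], [0, 1, 2, 3, 4, 5, 6, 7]),
   (0, [0, 0, 0, 0, 0, 0, 0, 0], [0, 1, 2, 3, 4, 5, 6, 7]),
   (0, [0, 0, 0, 0, 0, 0, 0, 0], [0, 1, 2, 3, 4, 5, 6, 7]),
   (0, [0, 0, 0, 0, 0, 0, 0, 0], [0, 1, 2, 3, 4, 5, 6, 7]),
   (0, [0, 0, 0, 0, 0, 0, 0, 0], [0, 1, 2, 3, 4, 5, 6, 7]),
   (0, [0, 0, 0, 0, 0, 0, 0, 0], [0, 1, 2, 3, 4, 7, 5, 6]),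
   (0, [0, 0, 0, 0, 0, 0, 0, 0], [0, 1, 2, 3, 7, 4, 6, 5]),
   (5, [0, 0, 0, 0, 1, 0, 1, 0], [7, 5, 4, 6, 3, 0, 2, 1]),
   (0, [0, 0, 0, 0, 0, 0, 0, 0], [0, 1, 2, 3, 7, 4, 6, 5]),
   (0, [0, 0, 0, 0, 0, 0, 0, 0], [0, 1, 2, 3, 7, 4, 6, 5]),
   (0, [0, 0, 0, 0, 0, 0, 0, 0], [0, 1, 2, 3, 4, 5, 6, 7]),
   (0, [0, 0, 0, 0, 0, 0, 0, 0], [0, 1, 2, 3, 4, 5, 6, 7]),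
   (0, [0, 0, 0, 0, 0, 0, 0, 0], [0, 1, 2, 3, 4, 5, 6, 7]),
   (0, [0, 0, 0, 0, 0, 0, 0, 0], [0, 1, 2, 3, 4, 5, 6, 7]),
   (0, [0, 0, 0, 0, 0, 0, 0, 0], [0, 1, 2, 3, 4, 5, 6, 7]),
   (0, [0, 0, 0, 0, 0, 0, 0, 0], [0, 1, 2, 3, 4, 7, 5, 6]),
   (0, [0, 0, 0, 0, 0, 0, 0, 0], [0, 1, 2, 3, 4, 5, 6, 7]),
   (0, [0, 0, 0, 0, 0, 0, 0, 0], [0, 1, 2, 3, 4, 5, 6, 7]),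
   (0, [0, 0, 0, 0, 0, 0, 0, 0], [0, 1, 2, 3, 4, 5, 6, 7]),
   (0, [0, 0, 0, 0, 0, 0, 0, 0], [0, 1, 2, 3, 7, 4, 6, 5]),
   (0, [0, 0, 0, 0, 0, 0, 0, 0], [0, 1, 2, 7, 3, 4, 5, 6]),
   (0, [0, 0, 0, 0, 0, 0, 0, 0], [0, 1, 2, 7, 3, 4, 5, 6]),
   (0, [0, 0, 0, 0, 0, 0, 0, 0], [0, 1, 2, 7, 3, 6, 4, 5]),
   (0, [0, 0, 0, 0, 0, 0, 0, 0], [0, 1, 2, 7, 3, 4, 5, 6]),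
   (2, [0, 0, 0, 1, 0, 0, 0, 0], [6, 7, 0, 5, 1, 4, 2, 3]),
   (0, [0, 0, 0, 0, 0, 0, 0, 1], [0, 1, 6, 2, 3, 7, 4, 5]),
   (0, [0, 0, 0, 0, 0, 0, 0, 0], [0, 1, 7, 2, 3, 4, 5, 6]),
   (0, [0, 0, 0, 0, 0, 0, 0, 0], [0, 1, 7, 2, 3, 4, 5, 6]),
   (0, [0, 0, 0, 0, 0, 0, 0, 0], [0, 1, 6, 2, 3, 4, 7, 5]),
   (0, [0, 0, 0, 0, 0, 0, 0, 0], [0, 1, 5, 2, 3, 6, 4, 7]),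
   (0, [0, 0, 0, 0, 0, 0, 0, 0], [0, 1, 5, 2, 3, 6, 4, 7]),
   (0, [0, 0, 0, 0, 0, 0, 0, 0], [0, 1, 6, 2, 3, 7, 4, 5]),
   (0, [0, 0, 0, 0, 0, 1, 0, 1], [0, 1, 7, 2, 3, 4, 5, 6]),
   (0, [0, 0, 0, 0, 0, 0, 0, 0], [0, 1, 6, 2, 3, 7, 4, 5]),
   (0, [0, 0, 0, 0, 0, 0, 0, 0], [0, 1, 6, 2, 3, 7, 4, 5]),
   (0, [0, 0, 0, 0, 0, 0, 0, 0], [0, 1, 4, 2, 5, 3, 6, 7]),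
   (0, [0, 0, 0, 0, 0, 0, 0, 0], [0, 1, 5, 2, 6, 3, 7, 4]),
   (0, [0, 0, 0, 0, 0, 0, 0, 0], [0, 1, 5, 2, 6, 3, 7, 4]),
   (6, [0, 0, 0, 0, 0, 0, 0, 0], [2, 3, 4, 5, 1, 6, 0, 7]),
   (7, [0, 0, 0, 0, 0, 0, 0, 0], [3, 4, 5, 2, 6, 1, 7, 0]),
   (6, [0, 0, 0, 0, 0, 0, 0, 0], [3, 4, 5, 6, 1, 7, 0, 2]),
   (0, [0, 0, 0, 0, 0, 0, 0, 0], [0, 1, 5, 2, 7, 3, 6, 4]),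
   (1, [0, 0, 0, 0, 1, 0, 1, 0], [4, 0, 7, 1, 5, 2, 6, 3]),
   (6, [0, 0, 0, 0, 0, 0, 0, 0], [3, 4, 5, 6, 1, 7, 0, 2]),
   (0, [0, 0, 0, 0, 0, 0, 0, 0], [0, 1, 5, 2, 7, 3, 6, 4]),
   (0, [0, 0, 0, 0, 0, 0, 0, 0], [0, 1, 7, 2, 3, 4, 5, 6]),
   (0, [0, 0, 0, 0, 0, 0, 0, 0], [0, 1, 7, 2, 3, 4, 5, 6]),
   (0, [0, 0, 0, 0, 0, 0, 0, 0], [0, 1, 7, 2, 3, 4, 5, 6]),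
   (0, [0, 0, 0, 0, 0, 0, 0, 0], [0, 1, 5, 2, 3, 6, 4, 7]),
   (0, [0, 0, 0, 0, 0, 0, 0, 0], [0, 1, 6, 2, 3, 7, 4, 5]),
   (0, [0, 0, 0, 0, 0, 0, 0, 0], [0, 1, 6, 2, 3, 7, 4, 5]),
   (0, [0, 0, 0, 0, 0, 0, 0, 0], [0, 1, 5, 2, 6, 3, 7, 4]),
   (0, [0, 0, 0, 0, 0, 0, 0, 0], [0, 1, 5, 2, 6, 3, 7, 4]),
   (6, [0, 0, 0, 0, 0, 0, 0, 0], [3, 4, 5, 6, 1, 7, 0, 2]),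
   (0, [0, 0, 0, 0, 0, 0, 0, 0], [0, 1, 5, 2, 7, 3, 6, 4]),
   (0, [0, 0, 0, 0, 0, 0, 0, 0], [0, 1, 7, 2, 3, 4, 5, 6]),
   (0, [0, 0, 0, 0, 0, 0, 0, 0], [0, 1, 7, 2, 3, 4, 5, 6]),
   (0, [0, 0, 0, 0, 0, 0, 0, 0], [0, 1, 6, 2, 3, 7, 4, 5]),
   (0, [0, 0, 0, 0, 0, 0, 0, 0], [0, 1, 5, 2, 6, 3, 7, 4]),
   (0, [0, 0, 0, 0, 0, 0, 0, 0], [0, 1, 5, 7, 2, 6, 3, 4]),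
   (0, [0, 0, 0, 0, 0, 0, 0, 0], [0, 1, 7, 2, 3, 4, 5, 6]),
   (0, [0, 0, 0, 0, 0, 0, 0, 0], [0, 1, 7, 2, 3, 4, 5, 6]),
   (0, [0, 0, 0, 0, 0, 0, 0, 0], [0, 1, 7, 2, 3, 4, 5, 6]),
   (0, [0, 0, 1, 0, 0, 1, 0, 1], [0, 4, 5, 1, 6, 2, 7, 3]),
   (0, [0, 0, 0, 0, 0, 0, 0, 0], [0, 1, 7, 2, 3, 6, 4, 5]),
   (0, [0, 0, 0, 0, 0, 0, 0, 0], [0, 1, 7, 2, 3, 6, 4, 5]),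
   (0, [0, 0, 0, 0, 0, 0, 0, 0], [0, 1, 7, 2, 6, 3, 5, 4]),
   (3, [0, 0, 1, 0, 1, 0, 1, 0], [1, 2, 3, 0, 4, 5, 6, 7]),
   (6, [0, 0, 0, 0, 0, 0, 0, 0], [3, 4, 7, 5, 1, 6, 0, 2]),
   (0, [0, 0, 0, 0, 0, 0, 0, 0], [0, 1, 7, 2, 6, 3, 5, 4]),
   (0, [0, 0, 0, 0, 0, 0, 0, 0], [0, 1, 7, 2, 3, 4, 5, 6]),
   (0, [0, 0, 0, 0, 0, 0, 0, 0], [0, 1, 7, 2, 3, 4, 5, 6]),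
   (0, [0, 0, 0, 0, 0, 0, 0, 0], [0, 1, 7, 2, 3, 6, 4, 5]),
   (0, [0, 0, 0, 0, 0, 0, 0, 0], [0, 1, 7, 2, 6, 3, 5, 4]),
   (0, [0, 0, 0, 0, 0, 0, 0, 0], [0, 1, 7, 2, 3, 4, 5, 6]),
   (0, [0, 0, 1, 0, 0, 0, 0, 0], [0, 2, 3, 1, 4, 5, 6, 7]),
   (0, [0, 0, 1, 0, 0, 0, 0, 0], [0, 2, 3, 1, 4, 5, 6, 7]),
   (0, [0, 0, 1, 0, 0, 0, 0, 0], [0, 2, 3, 1, 4, 7, 5, 6]),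
   (0, [0, 0, 1, 0, 0, 0, 0, 0], [0, 2, 3, 1, 7, 4, 6, 5]),
   (0, [0, 0, 1, 0, 0, 0, 0, 0], [0, 2, 3, 1, 4, 5, 6, 7]),
   (6, [0, 0, 1, 0, 0, 0, 0, 0], [3, 6, 7, 4, 1, 5, 0, 2]),
   (0, [0, 0, 0, 0, 0, 0, 0, 1], [0, 5, 6, 1, 2, 7, 3, 4]),
   (0, [0, 0, 0, 0, 0, 0, 0, 0], [0, 6, 7, 1, 2, 3, 4, 5]),
   (0, [0, 0, 0, 0, 0, 0, 0, 0], [0, 6, 7, 1, 2, 3, 4, 5]),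
   (0, [0, 0, 0, 0, 0, 0, 0, 0], [0, 5, 6, 1, 2, 3, 7, 4]),
   (0, [0, 0, 0, 0, 0, 0, 0, 0], [0, 4, 5, 1, 2, 6, 3, 7]),
   (0, [0, 0, 0, 0, 0, 0, 0, 0], [0, 4, 5, 1, 2, 6, 3, 7]),
   (0, [0, 0, 0, 0, 0, 0, 0, 0], [0, 5, 6, 1, 2, 7, 3, 4]),
   (0, [0, 0, 0, 0, 0, 1, 0, 1], [0, 6, 7, 1, 2, 3, 4, 5]),
   (0, [0, 0, 0, 0, 0, 0, 0, 0], [0, 5, 6, 1, 2, 7, 3, 4]),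
   (0, [0, 0, 0, 0, 0, 0, 0, 0], [0, 5, 6, 1, 2, 7, 3, 4]),
   (0, [0, 0, 0, 0, 0, 0, 0, 0], [0, 3, 4, 1, 5, 2, 6, 7]),
   (0, [0, 0, 0, 0, 0, 0, 0, 0], [0, 4, 5, 1, 6, 2, 7, 3]),
   (0, [0, 0, 0, 0, 0, 0, 0, 0], [0, 4, 5, 1, 6, 2, 7, 3]),
   (0, [0, 0, 0, 0, 0, 0, 0, 0], [0, 2, 3, 1, 4, 5, 6, 7]),
   (0, [0, 0, 0, 0, 0, 0, 0, 0], [0, 2, 3, 1, 4, 5, 6, 7]),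
   (0, [0, 0, 0, 0, 0, 0, 0, 0], [0, 2, 3, 1, 4, 7, 5, 6]),
   (0, [0, 0, 0, 0, 0, 0, 0, 0], [0, 4, 5, 1, 7, 2, 6, 3]),
   (3, [0, 0, 0, 0, 1, 0, 1, 0], [1, 2, 7, 0, 3, 4, 5, 6]),
   (0, [0, 0, 0, 0, 0, 0, 0, 0], [0, 2, 3, 1, 7, 4, 6, 5]),
   (0, [0, 0, 0, 0, 0, 0, 0, 0], [0, 4, 5, 1, 7, 2, 6, 3]),
   (0, [0, 0, 0, 0, 0, 0, 0, 0], [0, 6, 7, 1, 2, 3, 4, 5]),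
   (0, [0, 0, 0, 0, 0, 0, 0, 0], [0, 6, 7, 1, 2, 3, 4, 5]),
   (0, [0, 0, 0, 0, 0, 0, 0, 0], [0, 6, 7, 1, 2, 3, 4, 5]),
   (0, [0, 0, 0, 0, 0, 0, 0, 0], [0, 4, 5, 1, 2, 6, 3, 7]),
   (0, [0, 0, 0, 0, 0, 0, 0, 0], [0, 5, 6, 1, 2, 7, 3, 4]),
   (0, [0, 0, 0, 0, 0, 0, 0, 0], [0, 5, 6, 1, 2, 7, 3, 4]),
   (0, [0, 0, 0, 0, 0, 0, 0, 0], [0, 4, 5, 1, 6, 2, 7, 3]),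
   (0, [0, 0, 0, 0, 0, 0, 0, 0], [0, 4, 5, 1, 6, 2, 7, 3]),
   (0, [0, 0, 0, 0, 0, 0, 0, 0], [0, 2, 3, 1, 4, 5, 6, 7]),
   (0, [0, 0, 0, 0, 0, 0, 0, 0], [0, 4, 5, 1, 7, 2, 6, 3]),
   (0, [0, 0, 0, 0, 0, 0, 0, 0], [0, 6, 3, 7, 1, 4, 2, 5]),
   (0, [0, 0, 0, 0, 0, 0, 0, 0], [0, 6, 4, 7, 1, 5, 2, 3]),
   (0, [0, 0, 0, 0, 0, 0, 0, 0], [0, 6, 4, 7, 1, 5, 2, 3]),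
   (2, [0, 0, 0, 0, 0, 0, 0, 0], [5, 6, 0, 7, 4, 1, 3, 2]),
   (0, [0, 0, 0, 0, 0, 0, 0, 0], [0, 6, 4, 7, 1, 5, 2, 3]),
   (0, [0, 0, 0, 0, 0, 0, 0, 0], [0, 6, 7, 1, 2, 3, 4, 5]),
   (0, [0, 0, 0, 0, 0, 0, 0, 0], [0, 6, 7, 1, 2, 3, 4, 5]),
   (0, [0, 0, 0, 0, 0, 0, 0, 0], [0, 6, 7, 1, 2, 3, 4, 5]),
   (0, [0, 0, 0, 0, 0, 0, 0, 0], [0, 4, 5, 1, 2, 6, 3, 7]),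
   (0, [0, 0, 0, 0, 0, 0, 0, 0], [0, 5, 6, 1, 2, 7, 3, 4]),
   (0, [0, 0, 0, 0, 0, 0, 0, 0], [0, 5, 6, 1, 2, 7, 3, 4]),
   (0, [0, 0, 0, 0, 0, 0, 0, 0], [0, 4, 5, 1, 6, 2, 7, 3]),
   (0, [0, 0, 0, 0, 0, 0, 0, 0], [0, 4, 5, 1, 6, 2, 7, 3]),
   (6, [0, 0, 0, 0, 0, 0, 0, 0], [3, 6, 7, 4, 1, 5, 0, 2]),
   (0, [0, 0, 0, 0, 0, 0, 0, 0], [0, 4, 5, 1, 7, 2, 6, 3]),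
   (0, [0, 0, 0, 0, 0, 0, 0, 0], [0, 6, 7, 1, 2, 3, 4, 5]),
   (0, [0, 0, 0, 0, 0, 0, 0, 0], [0, 6, 7, 1, 2, 3, 4, 5]),
   (0, [0, 0, 0, 0, 0, 0, 0, 0], [0, 5, 6, 1, 2, 7, 3, 4]),
   (0, [0, 0, 0, 0, 0, 0, 0, 0], [0, 4, 5, 1, 6, 2, 7, 3]),
   (0, [0, 0, 0, 0, 0, 0, 0, 0], [0, 7, 5, 6, 1, 4, 2, 3]),
   (0, [0, 0, 0, 0, 0, 0, 0, 0], [0, 6, 7, 1, 2, 3, 4, 5]),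
   (0, [0, 0, 0, 0, 0, 0, 0, 0], [0, 6, 7, 1, 2, 3, 4, 5]),
   (0, [0, 0, 0, 0, 0, 0, 0, 0], [0, 5, 7, 1, 2, 6, 3, 4]),
   (0, [0, 0, 0, 0, 0, 0, 0, 0], [0, 4, 7, 1, 6, 2, 5, 3]),
   (0, [0, 0, 0, 0, 0, 0, 0, 0], [0, 6, 7, 1, 2, 3, 4, 5]),
   (6, [0, 0, 1, 0, 0, 0, 0, 0], [3, 7, 4, 5, 1, 6, 0, 2]),
   (0, [0, 0, 0, 0, 0, 0, 0, 0], [0, 7, 6, 1, 2, 3, 4, 5]),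
   (0, [0, 0, 0, 0, 0, 0, 0, 0], [0, 7, 6, 1, 2, 3, 4, 5]),
   (0, [0, 0, 0, 0, 0, 0, 0, 0], [0, 7, 6, 1, 2, 3, 4, 5]),
   (0, [0, 0, 0, 0, 0, 0, 0, 0], [0, 7, 4, 1, 2, 5, 3, 6]),
   (0, [0, 0, 0, 0, 0, 0, 0, 0], [0, 7, 5, 1, 2, 6, 3, 4]),
   (0, [0, 0, 0, 0, 0, 0, 0, 0], [0, 7, 5, 1, 2, 6, 3, 4]),
   (0, [0, 0, 0, 0, 0, 0, 0, 0], [0, 7, 4, 1, 5, 2, 6, 3]),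
   (0, [0, 0, 0, 0, 0, 0, 0, 0], [0, 7, 4, 1, 5, 2, 6, 3]),
   (6, [0, 0, 0, 0, 0, 0, 0, 0], [3, 7, 4, 5, 1, 6, 0, 2]),
   (0, [0, 0, 0, 0, 0, 0, 0, 0], [0, 6, 4, 1, 7, 2, 5, 3]),
   (0, [0, 0, 0, 0, 0, 0, 0, 0], [0, 7, 6, 1, 2, 3, 4, 5]),
   (0, [0, 0, 0, 0, 0, 0, 0, 0], [0, 7, 6, 1, 2, 3, 4, 5]),
   (0, [0, 0, 0, 0, 0, 0, 0, 0], [0, 7, 5, 1, 2, 6, 3, 4]),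
   (0, [0, 0, 0, 0, 0, 0, 0, 0], [0, 7, 4, 1, 5, 2, 6, 3]),
   (0, [0, 0, 0, 0, 0, 0, 0, 0], [0, 7, 4, 6, 1, 5, 2, 3]),
   (0, [0, 0, 0, 0, 0, 0, 0, 0], [0, 7, 6, 1, 2, 3, 4, 5]),
   (0, [0, 0, 0, 0, 0, 0, 0, 0], [0, 7, 6, 1, 2, 3, 4, 5]),
   (0, [0, 0, 0, 0, 0, 0, 0, 0], [0, 7, 6, 1, 2, 5, 3, 4]),
   (0, [0, 0, 0, 0, 0, 0, 0, 0], [0, 7, 6, 1, 5, 2, 4, 3]),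
   (0, [0, 0, 0, 0, 0, 0, 0, 0], [0, 7, 6, 1, 2, 3, 4, 5]),
   (6, [0, 1, 1, 0, 0, 0, 0, 0], [7, 5, 3, 6, 1, 4, 0, 2]),
   (5, [0, 1, 0, 0, 0, 0, 0, 0], [7, 5, 4, 6, 3, 0, 2, 1]),
   (4, [0, 1, 0, 0, 0, 0, 0, 0], [7, 5, 4, 6, 0, 3, 1, 2]),
   (4, [0, 1, 0, 0, 0, 0, 0, 0], [7, 5, 4, 6, 0, 3, 1, 2]),
   (5, [0, 1, 0, 0, 0, 0, 0, 0], [7, 5, 4, 6, 3, 0, 2, 1]),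
   (4, [0, 1, 0, 0, 0, 0, 0, 0], [6, 5, 4, 7, 0, 3, 1, 2]),
   (6, [1, 2, 1, 1, 0, 0, 0, 0], [3, 4, 5, 6, 1, 7, 0, 2]),
   (6, [1, 2, 0, 1, 0, 0, 0, 0], [3, 4, 7, 5, 1, 6, 0, 2]),
   (1, [0, 0, 0, 0, 0, 0, 0, 1], [6, 0, 1, 2, 3, 7, 4, 5]),
   (1, [0, 0, 0, 0, 0, 0, 0, 0], [7, 0, 1, 2, 3, 4, 5, 6]),
   (1, [0, 0, 0, 0, 0, 0, 0, 0], [7, 0, 1, 2, 3, 4, 5, 6]),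
   (1, [0, 0, 0, 0, 0, 0, 0, 0], [6, 0, 1, 2, 3, 4, 7, 5]),
   (1, [0, 0, 0, 0, 0, 0, 0, 0], [7, 0, 1, 2, 3, 4, 5, 6]),
   (1, [0, 0, 0, 0, 0, 0, 0, 0], [7, 0, 1, 2, 3, 4, 5, 6]),
   (1, [0, 0, 0, 0, 0, 0, 0, 0], [7, 0, 1, 2, 3, 4, 5, 6]),
   (4, [0, 0, 0, 0, 0, 1, 0, 1], [7, 5, 4, 6, 0, 3, 1, 2]),
   (1, [0, 0, 0, 0, 0, 0, 0, 0], [6, 0, 1, 2, 3, 7, 4, 5]),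
   (1, [0, 0, 0, 0, 0, 0, 0, 0], [6, 0, 1, 2, 3, 7, 4, 5]),
   (1, [0, 0, 0, 0, 0, 0, 0, 0], [4, 0, 1, 2, 5, 3, 6, 7]),
   (1, [0, 0, 0, 0, 0, 0, 0, 0], [5, 0, 1, 2, 6, 3, 7, 4]),
   (1, [0, 0, 0, 0, 0, 0, 0, 0], [5, 0, 1, 2, 6, 3, 7, 4]),
   (1, [0, 0, 0, 0, 0, 0, 0, 0], [5, 0, 1, 2, 6, 3, 7, 4]),
   (1, [0, 0, 0, 0, 0, 0, 0, 0], [5, 0, 1, 2, 6, 3, 7, 4]),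
   (1, [0, 0, 0, 0, 0, 0, 0, 0], [3, 0, 1, 2, 4, 7, 5, 6]),
   (1, [0, 0, 0, 0, 0, 0, 0, 0], [5, 0, 1, 2, 7, 3, 6, 4]),
   (1, [0, 0, 0, 0, 1, 0, 1, 0], [4, 0, 5, 1, 6, 2, 7, 3]),
   (1, [0, 0, 0, 0, 0, 0, 0, 0], [5, 0, 1, 2, 7, 3, 6, 4]),
   (1, [0, 0, 0, 0, 0, 0, 0, 0], [5, 0, 1, 2, 7, 3, 6, 4]),
   (1, [0, 0, 0, 0, 0, 0, 0, 0], [6, 0, 1, 7, 2, 3, 4, 5]),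
   (1, [0, 0, 0, 0, 0, 0, 0, 0], [6, 0, 1, 7, 2, 3, 4, 5]),
   (1, [0, 0, 0, 0, 0, 0, 0, 0], [6, 0, 1, 7, 2, 3, 4, 5]),
   (1, [0, 0, 0, 0, 0, 0, 0, 0], [4, 0, 1, 5, 2, 6, 3, 7]),
   (1, [0, 0, 0, 0, 0, 0, 0, 0], [5, 0, 1, 6, 2, 7, 3, 4]),
   (1, [0, 0, 0, 0, 0, 0, 0, 0], [5, 0, 1, 6, 2, 7, 3, 4]),
   (1, [0, 0, 0, 0, 0, 0, 0, 0], [6, 0, 1, 4, 7, 2, 5, 3]),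
   (1, [0, 0, 0, 0, 0, 0, 0, 0], [5, 0, 1, 4, 6, 2, 7, 3]),
   (6, [0, 0, 0, 0, 0, 0, 0, 0], [7, 5, 3, 6, 1, 4, 0, 2]),
   (1, [0, 0, 0, 0, 0, 0, 0, 0], [6, 0, 1, 4, 7, 2, 5, 3]),
   (1, [0, 0, 0, 0, 0, 0, 0, 0], [6, 0, 1, 7, 2, 3, 4, 5]),
   (1, [0, 0, 0, 0, 0, 0, 0, 0], [6, 0, 1, 7, 2, 3, 4, 5]),
   (1, [0, 0, 0, 0, 0, 0, 0, 0], [5, 0, 1, 6, 2, 7, 3, 4]),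
   (1, [0, 0, 0, 0, 0, 0, 0, 0], [6, 0, 1, 7, 5, 2, 4, 3]),
   (1, [0, 0, 0, 0, 0, 0, 0, 0], [6, 0, 1, 7, 2, 3, 4, 5]),
   (1, [0, 0, 0, 0, 0, 0, 0, 0], [3, 0, 4, 1, 5, 2, 6, 7]),
   (1, [0, 0, 0, 0, 0, 0, 0, 0], [4, 0, 5, 1, 6, 2, 7, 3]),
   (1, [0, 0, 0, 0, 0, 0, 0, 0], [4, 0, 5, 1, 6, 2, 7, 3]),
   (1, [0, 0, 0, 0, 0, 0, 0, 0], [2, 0, 5, 1, 3, 6, 4, 7]),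
   (1, [0, 0, 0, 0, 0, 0, 0, 0], [2, 0, 6, 1, 3, 7, 4, 5]),
   (1, [0, 0, 0, 0, 0, 0, 0, 0], [2, 0, 6, 1, 3, 7, 4, 5]),
   (1, [0, 0, 0, 0, 0, 0, 0, 0], [4, 0, 5, 1, 6, 2, 7, 3]),
   (1, [0, 0, 0, 0, 0, 0, 0, 0], [4, 0, 5, 1, 6, 2, 7, 3]),
   (6, [0, 0, 0, 0, 0, 0, 0, 0], [6, 7, 4, 5, 1, 3, 0, 2]),
   (1, [0, 0, 0, 0, 0, 0, 0, 0], [4, 0, 5, 1, 7, 2, 6, 3]),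
   (5, [0, 0, 0, 0, 0, 0, 0, 0], [7, 5, 4, 6, 3, 0, 2, 1]),
   (4, [0, 0, 0, 0, 0, 0, 0, 0], [7, 5, 4, 6, 0, 3, 1, 2]),
   (4, [0, 0, 0, 0, 0, 0, 0, 0], [7, 5, 4, 6, 0, 3, 1, 2]),
   (5, [0, 0, 0, 0, 0, 0, 0, 0], [7, 5, 4, 6, 3, 0, 2, 1]),
   (4, [0, 0, 0, 0, 0, 0, 0, 0], [6, 5, 4, 7, 0, 3, 1, 2]),
   (1, [0, 0, 0, 0, 0, 0, 0, 0], [4, 0, 7, 1, 5, 2, 6, 3]),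
   (1, [0, 0, 0, 0, 0, 0, 0, 0], [4, 0, 7, 1, 5, 2, 6, 3]),
   (1, [0, 0, 0, 0, 0, 0, 0, 0], [2, 0, 7, 1, 3, 6, 4, 5]),
   (1, [0, 0, 0, 0, 0, 0, 0, 0], [4, 0, 7, 1, 6, 2, 5, 3]),
   (6, [1, 1, 1, 1, 0, 0, 0, 0], [3, 4, 5, 6, 1, 7, 0, 2]),
   (3, [0, 0, 1, 0, 0, 0, 0, 0], [1, 2, 3, 0, 4, 5, 6, 7]),
   (2, [0, 0, 0, 0, 0, 0, 0, 0], [6, 7, 0, 5, 1, 2, 3, 4]),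
   (2, [0, 0, 0, 0, 0, 0, 0, 0], [6, 7, 0, 5, 1, 2, 3, 4]),
   (2, [0, 0, 0, 0, 0, 0, 0, 0], [6, 7, 0, 5, 1, 2, 3, 4]),
   (3, [0, 0, 0, 0, 0, 0, 0, 0], [1, 2, 3, 0, 4, 5, 6, 7]),
   (2, [0, 0, 0, 0, 0, 0, 0, 0], [6, 7, 0, 5, 1, 4, 2, 3]),
   (2, [0, 0, 0, 0, 0, 0, 0, 0], [6, 7, 0, 5, 1, 4, 2, 3]),
   (2, [0, 0, 0, 0, 0, 0, 0, 0], [5, 6, 0, 3, 7, 1, 4, 2]),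
   (2, [0, 0, 0, 0, 0, 0, 0, 0], [4, 5, 0, 3, 6, 1, 7, 2]),
   (3, [0, 0, 0, 0, 0, 0, 0, 0], [1, 2, 3, 0, 4, 5, 6, 7]),
   (2, [0, 0, 0, 0, 0, 0, 0, 0], [5, 6, 0, 3, 7, 1, 4, 2]),
   (6, [1, 1, 0, 1, 0, 0, 0, 0], [2, 3, 4, 5, 1, 6, 0, 7]),
   (7, [1, 1, 0, 1, 0, 0, 0, 0], [3, 4, 5, 2, 6, 1, 7, 0]),
   (6, [1, 1, 0, 1, 0, 0, 0, 0], [3, 4, 5, 6, 1, 7, 0, 2]),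
   (6, [1, 1, 0, 1, 0, 0, 0, 0], [3, 4, 5, 6, 1, 7, 0, 2]),
   (6, [1, 1, 0, 1, 0, 0, 0, 0], [3, 4, 5, 6, 1, 7, 0, 2]),
   (3, [0, 0, 0, 0, 0, 0, 0, 0], [1, 2, 7, 0, 3, 4, 5, 6]),
   (3, [0, 0, 0, 0, 0, 0, 0, 0], [1, 2, 7, 0, 3, 4, 5, 6]),
   (3, [0, 0, 0, 0, 0, 0, 0, 0], [1, 2, 6, 0, 3, 7, 4, 5]),
   (3, [0, 0, 0, 0, 0, 0, 0, 0], [1, 2, 5, 0, 6, 3, 7, 4]),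
   (6, [1, 1, 0, 1, 0, 0, 0, 0], [3, 4, 7, 5, 1, 6, 0, 2]),
   (3, [0, 0, 0, 0, 0, 0, 0, 0], [1, 2, 7, 0, 3, 4, 5, 6]),
   (2, [0, 0, 0, 0, 0, 0, 0, 0], [6, 7, 0, 5, 1, 2, 3, 4]),
   (2, [0, 0, 0, 0, 0, 0, 0, 0], [6, 7, 0, 5, 1, 2, 3, 4]),
   (2, [0, 0, 0, 0, 0, 0, 0, 0], [6, 7, 0, 5, 1, 4, 2, 3]),
   (2, [0, 0, 0, 0, 0, 0, 0, 0], [5, 6, 0, 3, 7, 1, 4, 2]),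
   (6, [1, 1, 0, 1, 0, 0, 0, 0], [3, 6, 7, 4, 1, 5, 0, 2]),
   (3, [0, 0, 0, 0, 0, 0, 0, 0], [1, 7, 6, 0, 2, 3, 4, 5]),
   (4, [0, 1, 0, 0, 0, 0, 0, 0], [7, 5, 4, 6, 0, 3, 1, 2]),
   (1, [0, 0, 0, 0, 0, 0, 0, 0], [7, 0, 1, 2, 3, 4, 5, 6]),
   (1, [0, 0, 0, 0, 0, 0, 0, 0], [7, 0, 1, 2, 3, 4, 5, 6]),
   (1, [0, 0, 0, 0, 0, 0, 0, 0], [7, 0, 1, 2, 3, 4, 5, 6]),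
   (1, [0, 0, 0, 0, 0, 0, 0, 0], [7, 0, 1, 2, 3, 4, 5, 6]),
   (1, [0, 0, 0, 0, 0, 0, 0, 0], [7, 0, 1, 2, 3, 4, 5, 6]),
   (1, [0, 0, 0, 0, 0, 0, 0, 0], [6, 0, 1, 2, 3, 7, 4, 5]),
   (1, [0, 0, 0, 0, 0, 0, 0, 0], [5, 0, 1, 2, 6, 3, 7, 4]),
   (1, [0, 0, 0, 0, 0, 0, 0, 0], [5, 0, 1, 2, 6, 3, 7, 4]),
   (1, [0, 0, 0, 0, 0, 0, 0, 0], [5, 0, 1, 2, 6, 3, 7, 4]),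
   (1, [0, 0, 0, 0, 0, 0, 0, 0], [5, 0, 1, 2, 7, 3, 6, 4]),
   (1, [0, 0, 0, 0, 0, 0, 0, 0], [7, 0, 1, 6, 2, 3, 4, 5]),
   (1, [0, 0, 0, 0, 0, 0, 0, 0], [7, 0, 1, 6, 2, 3, 4, 5]),
   (1, [0, 0, 0, 0, 0, 0, 0, 0], [7, 0, 1, 6, 2, 5, 3, 4]),
   (1, [0, 0, 0, 0, 0, 0, 0, 0], [6, 0, 1, 4, 7, 2, 5, 3]),
   (6, [1, 0, 0, 1, 0, 0, 0, 0], [3, 7, 4, 5, 1, 6, 0, 2]),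
   (1, [0, 0, 0, 0, 0, 0, 0, 0], [4, 0, 5, 1, 6, 2, 7, 3]),
   (1, [0, 0, 0, 0, 0, 0, 0, 0], [4, 0, 5, 1, 6, 2, 7, 3]),
   (1, [0, 0, 0, 0, 0, 0, 0, 0], [2, 0, 6, 1, 3, 7, 4, 5]),
   (1, [0, 0, 0, 0, 0, 0, 0, 0], [4, 0, 5, 1, 6, 2, 7, 3]),
   (4, [0, 0, 0, 0, 0, 0, 0, 0], [7, 5, 4, 6, 0, 3, 1, 2]),
   (1, [0, 0, 0, 0, 0, 0, 0, 0], [4, 0, 7, 1, 5, 2, 6, 3]),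
   (2, [0, 0, 0, 0, 0, 0, 0, 0], [6, 7, 0, 5, 1, 2, 3, 4]),
   (2, [0, 0, 0, 0, 0, 0, 0, 0], [6, 7, 0, 5, 1, 2, 3, 4]),
   (2, [0, 0, 0, 0, 0, 0, 0, 0], [6, 7, 0, 5, 1, 4, 2, 3]),
   (2, [0, 0, 0, 0, 0, 0, 0, 0], [7, 5, 0, 3, 6, 1, 4, 2]),
   (6, [1, 1, 0, 1, 0, 0, 0, 0], [6, 7, 4, 5, 1, 3, 0, 2]),
   (3, [0, 0, 0, 0, 0, 0, 0, 0], [5, 6, 7, 0, 4, 1, 3, 2]),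
   (2, [0, 0, 0, 0, 0, 0, 0, 0], [6, 7, 0, 5, 1, 2, 3, 4]),
   (1, [0, 0, 0, 0, 0, 0, 0, 0], [7, 0, 1, 2, 3, 4, 5, 6]),
   (1, [0, 0, 0, 0, 0, 0, 0, 0], [7, 0, 1, 2, 3, 4, 5, 6]),
   (1, [0, 0, 0, 0, 0, 0, 0, 0], [7, 0, 1, 2, 3, 4, 5, 6]),
   (1, [0, 0, 0, 0, 0, 0, 0, 0], [7, 0, 1, 2, 6, 3, 5, 4]),
   (1, [0, 0, 0, 0, 0, 0, 0, 0], [7, 0, 1, 6, 2, 3, 4, 5]),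
   (1, [0, 0, 0, 0, 0, 0, 0, 0], [7, 0, 4, 1, 5, 2, 6, 3]),
   (2, [0, 0, 0, 0, 0, 0, 0, 0], [7, 6, 0, 5, 1, 2, 3, 4]),
   (2, [1, 0, 0, 0, 0, 0, 0, 0], [5, 6, 0, 7, 4, 1, 3, 2])]

theorem check : checkAll G (comps 8 4) certs = true := by decide +kernel

theorem low1 (D : Fin 8 → ℤ) (hD : G.RankGE D 1) : 5 ≤ deg D := by
  have := deg_gt_of_checkAll G 4 certs check D hD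
  omega

theorem deg_sub_single (D : Fin 8 → ℤ) (v : Fin 8) : deg (fun w => D w - single v w) = deg D - 1 := by
  have : deg (fun w => D w - single v w) = deg D - deg (single v) := Finset.sum_sub_distrib _ _
  rw [this, deg_single]

theorem gon1 : G.gon 1 = 5 := by
  refine G.gon_eq 1 5 ⟨_, ?_, rank2.sub_single 0⟩ low1
  rw [deg_sub_single]
  decide +kernel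

theorem gon2 : G.gon 2 = 6 := by
  refine G.gon_eq 2 6 ⟨_, by decide +kernel, rank2⟩ fun D hD => ?_
  have := low1 _ (hD.sub_single 0)
  rw [deg_sub_single] at this
  push_cast
  linarith

theorem gon3 : G.gon 3 ≤ 8 := G.gon_le 3 8 ⟨_, by decide +kernel, rank3⟩

end Pool.Agent.Q254.D208ff
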