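import Mathlib
import Pool.Agent.Q254.ChipDef

/-!
# Statements of the two Fessler-Jensen-Kelsey-Owen questions (helper254)
-/

namespace Pool.Agent.Q254.D208ff

open Pool.Agent.Q254.Chip

/-- A graph is gonality-tight if its second gonality is one more than its first gonality. -/
def GonalityTight {n : ℕ} (G : MGraph (Fin n)) : Prop := G.gon 2 = G.gon 1 + 1

/-- Q1: every connected gonality-tight graph has genus `k choose 2`, where `k` is its gonality. -/
def GenusStatement : Prop :=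
  ∀ (n : ℕ) (G : MGraph (Fin n)), G.Connected → GonalityTight G →
    G.genus = (((G.gon 1).choose 2 : ℕ) : ℤ)

/-- Q2: for every connected gonality-tight graph with gonality `k` and `g = k choose 2`, one has
`gon_r = g + r` for `r ≥ g`, and `gon_r = l (k + 1) - h` for `1 ≤ r < g`, where
`1 ≤ l ≤ k - 2`, `0 ≤ h ≤ l` and `r = l (l + 3) / 2 - h`. -/
def SequenceStatement : Prop :=
  ∀ (n : ℕ) (G : MGraph (Fin n)), G.Connected → GonalityTight G →
    (∀ r : ℕ, (G.gon 1).choose 2 ≤ r → G.gon r = (G.gon 1).choose 2 + r) ∧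
    (∀ r l h : ℕ, 1 ≤ r → r < (G.gon 1).choose 2 → 1 ≤ l → (l : ℤ) ≤ (G.gon 1 : ℤ) - 2 → h ≤ l →
      (r : ℚ) = (l : ℚ) * (l + 3) / 2 - h → (G.gon r : ℤ) = (l : ℤ) * (G.gon 1 + 1) - h)

end Pool.Agent.Q254.D208ff
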