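import Mathlib
import Pool.Agent.Q254.Chip
import Pool.Agent.Q254.ChipProd

/-!
# A product of a tree and a graph whose gonality is below the expected value (helper254)
-/

namespace Pool.Agent.Q254.D30555c

open Pool.Agent.Q254.Chip Pool.Agent.Q254.Chip.MGraph

set_option maxRecDepth 100000

/-- Edge multiplicities of `H`: vertices `0,1,2` span a triangle with the edges `01` and `02`
doubled, and `1 - 3 - 4 - 5` is a path. -/
def adj : List (List ℕ) :=
  [[0, 2, 2, 0, 0, 0],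
   [2, 0, 1, 1, 0, 0],
   [2, 1, 0, 0, 0, 0],
   [0, 1, 0, 0, 1, 0],
   [0, 0, 0, 1, 0, 1],
   [0, 0, 0, 0, 1, 0]]

/-- The graph `H` (6 vertices, 8 edges). -/
def H : MGraph (Fin 6) where
  m u v := (adj.getD u []).getD v 0
  symm := by decide
  loopless := by decide

/-- The tree with two vertices. -/
def T : MGraph (Fin 2) where
  m u v := if u = v then 0 else 1
  symm := by decide
  loopless := by decide

theorem connectedH : H.Connected := by
  have hz : ∀ v : Fin 6, H.simple.Reachable 0 v := by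
    have e : ∀ u v : Fin 6, 0 < H.m u v → H.simple.Reachable u v :=
      fun u v h => SimpleGraph.Adj.reachable (show H.simple.Adj u v from h)
    have h1 := e 0 1 (by decide)
    have h2 := e 0 2 (by decide)
    have h3 := h1.trans (e 1 3 (by decide))
    have h4 := h3.trans (e 3 4 (by decide))
    have h5 := h4.trans (e 4 5 (by decide))
    intro v
    fin_cases v
    · exact SimpleGraph.Reachable.refl _
    · exact h1
    · exact h2
    · exact h3
    · exact h4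
    · exact h5
  exact { preconnected := fun u v => (hz u).symm.trans (hz v) }

theorem treeT : T.IsTree := by
  refine ⟨?_, by decide +kernel⟩
  have e : ∀ u v : Fin 2, 0 < T.m u v → T.simple.Reachable u v :=
    fun u v h => SimpleGraph.Adj.reachable (show T.simple.Adj u v from h)
  have h1 := e 0 1 (by decide)
  have hz : ∀ v : Fin 2, T.simple.Reachable 0 v := by
    intro v
    fin_cases v
    · exact SimpleGraph.Reachable.refl _
    · exact h1
  exact { preconnected := fun u v => (hz u).symm.trans (hz v) }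

/-- Certificates that no effective divisor of degree 2 on `H` has positive rank. -/
def certs : List (Fin 6 × List ℤ × List ℕ) :=
  [(0, [0, 0, 0, 2, 4, 6], [0, 2, 1, 3, 4, 5]),
   (0, [0, 0, 0, 2, 4, 5], [0, 2, 1, 3, 4, 5]),
   (0, [0, 0, 0, 2, 4, 4], [0, 2, 1, 3, 4, 5]),
   (0, [0, 0, 0, 2, 3, 4], [0, 2, 1, 3, 4, 5]),
   (0, [0, 0, 0, 2, 3, 3], [0, 2, 1, 3, 4, 5]),
   (0, [0, 0, 0, 2, 2, 2], [0, 2, 1, 3, 4, 5]),
   (0, [0, 0, 0, 1, 2, 3], [0, 1, 2, 3, 4, 5]),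
   (0, [0, 0, 0, 1, 2, 2], [0, 1, 2, 3, 4, 5]),
   (0, [0, 0, 0, 1, 1, 1], [0, 1, 2, 3, 4, 5]),
   (0, [0, 0, 0, 0, 0, 0], [0, 1, 2, 3, 4, 5]),
   (0, [0, 0, 0, 1, 2, 3], [0, 2, 1, 3, 4, 5]),
   (0, [0, 0, 0, 1, 2, 2], [0, 2, 1, 3, 4, 5]),
   (0, [0, 0, 0, 1, 1, 1], [0, 2, 1, 3, 4, 5]),
   (0, [0, 0, 0, 0, 0, 0], [0, 1, 2, 3, 4, 5]),
   (0, [0, 0, 0, 0, 0, 0], [0, 2, 1, 3, 4, 5]),
   (2, [0, 0, 0, 1, 2, 3], [1, 2, 0, 3, 4, 5]),
   (2, [0, 0, 0, 1, 2, 2], [1, 2, 0, 3, 4, 5]),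
   (2, [0, 0, 0, 1, 1, 1], [1, 2, 0, 3, 4, 5]),
   (1, [0, 0, 0, 0, 0, 0], [1, 0, 2, 3, 4, 5]),
   (2, [0, 0, 0, 0, 0, 0], [1, 2, 0, 3, 4, 5]),
   (1, [0, 0, 0, 0, 0, 0], [5, 0, 1, 2, 3, 4])]

theorem check : checkAll H (comps 6 2) certs = true := by decide +kernel

theorem positiveRank_iff {V : Type} [Fintype V] [DecidableEq V] (G : MGraph V) (D : V → ℤ) :
    G.PositiveRank D ↔ G.RankGE D 1 := by
  rw [rankGE_one_iff]
  rfl

theorem low (D : Fin 6 → ℤ) (hD : H.PositiveRank D) : 3 ≤ deg D := by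
  have := deg_gt_of_checkAll H 2 certs check D ((positiveRank_iff H D).1 hD)
  omega

theorem gonality_le {V : Type} [Fintype V] [DecidableEq V] (G : MGraph V) (d : ℕ)
    (hex : ∃ D : V → ℤ, Effective D ∧ deg D = (d : ℤ) ∧ G.PositiveRank D) : G.gonality ≤ d :=
  Nat.sInf_le hex

theorem gonH_le : H.gonality ≤ 3 := by
  refine gonality_le H 3 ⟨vec [0, 0, 0, 0, 0, 3], (fun v => by revert v; decide +kernel), by decide +kernel, ?_⟩
  rw [positiveRank_iff]
  exact H.rankGE_of_scripts _ _ [[0, 1, 0, 4, 7, 10], [0, 0, 0, 0, 0, 0], [0, 0, 0, 0, 0, 3], [0, 0, 0, 0, 3, 6], [0, 0, 0, 3, 6, 9]] (by decide +kernel)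

theorem gonH : H.gonality = 3 := by
  refine le_antisymm gonH_le ?_
  have hne : {d : ℕ | ∃ D : Fin 6 → ℤ, Effective D ∧ deg D = (d : ℤ) ∧ H.PositiveRank D}.Nonempty :=
    ⟨3, vec [0, 0, 0, 0, 0, 3], (fun v => by revert v; decide +kernel), by decide +kernel, by
      rw [positiveRank_iff]
      exact H.rankGE_of_scripts _ _ [[0, 1, 0, 4, 7, 10], [0, 0, 0, 0, 0, 0], [0, 0, 0, 0, 0, 3], [0, 0, 0, 0, 3, 6], [0, 0, 0, 3, 6, 9]] (by decide +kernel)⟩
  obtain ⟨D, -, hd, hr⟩ := Nat.sInf_mem hne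
  have h1 := low D hr
  rw [hd] at h1
  exact_mod_cast h1

/-- A function on the vertices of the product from a list of 12 values. -/
def vecP (l : List ℤ) : Fin 2 × Fin 6 → ℤ := fun p => l.getD (6 * (p.1 : ℕ) + (p.2 : ℕ)) 0

/-- Firing scripts on the product. -/
def scriptsP : List (List ℤ) :=
  [[0, 0, 0, 0, 0, 1, 0, 0, 0, 0, 0, 1],
   [0, 0, 0, 1, 2, 3, 1, 1, 1, 1, 2, 3],
   [0, 0, 0, 0, 0, 0, 0, 0, 0, 0, 0, 0],
   [0, 0, 0, 0, 1, 2, 0, 0, 0, 0, 1, 2]]

/-- A divisor of degree 5 on the product. -/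
def DP : Fin 2 × Fin 6 → ℤ := vecP [0, 0, 0, 0, 0, 1, 1, 1, 1, 0, 0, 1]

theorem checkP : ∀ v : Fin 2 × Fin 6, ∃ f ∈ scriptsP, ∀ w : Fin 2 × Fin 6,
    0 ≤ (DP w - if w = v then 1 else 0) - (T.box H).lap (vecP f) w := by decide +kernel

theorem gonProd : (T.box H).gonality ≤ 5 := by
  refine gonality_le _ 5 ⟨DP, (fun v => by revert v; decide +kernel), by decide +kernel, fun v => ?_⟩
  obtain ⟨f, -, hf⟩ := checkP v
  exact ⟨_, hf, vecP f, fun w => by ring⟩

end Pool.Agent.Q254.D30555c
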