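import Mathlib

/-!
# Faithful circuit covers of weighted multigraphs: definitions (helper254)
-/

namespace Pool.Agent.Q254.FCover

/-- A loopless multigraph with vertex type `V` and edge type `E`. -/
structure Graph (V E : Type) where
  /-- the two ends of an edge -/
  ends : E → Sym2 V
  loopless : ∀ e, ¬ (ends e).IsDiag

variable {V E : Type} [Fintype V] [DecidableEq V] [Fintype E] [DecidableEq E]

namespace Graph

/-- The edges of `S` incident with `v`. -/
def at' (G : Graph V E) (S : Finset E) (v : V) : Finset E := S.filter fun e => v ∈ G.ends e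

/-- All vertices have degree 3. -/
def Cubic (G : Graph V E) : Prop := ∀ v, (G.at' Finset.univ v).card = 3

/-- A circuit, given by its edge set: a nonempty connected 2-regular subgraph. -/
def IsCircuit (G : Graph V E) (S : Finset E) : Prop :=
  S.Nonempty ∧ (∀ v, (G.at' S v).card = 0 ∨ (G.at' S v).card = 2) ∧
  ∀ e ∈ S, ∀ f ∈ S, Relation.ReflTransGen
    (fun a b => a ∈ S ∧ b ∈ S ∧ ∃ v, v ∈ G.ends a ∧ v ∈ G.ends b) e f

/-- The weight `w` is eulerian: the total weight at every vertex is even. -/
def Eulerian (G : Graph V E) (w : E → ℕ) : Prop := ∀ v, Even (∑ e ∈ G.at' Finset.univ v, w e)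

/-- `F` is a faithful circuit cover of the subgraph with edge set `D` and weight `w`: a finite
family (list) of circuits of that subgraph such that every edge `e` of `D` lies in exactly `w e`
members. -/
def FaithfulCover (G : Graph V E) (D : Finset E) (w : E → ℕ) (F : List (Finset E)) : Prop :=
  (∀ S ∈ F, G.IsCircuit S ∧ S ⊆ D) ∧ ∀ e ∈ D, (F.filter fun S => e ∈ S).length = w e

end Graph

/-- Q1: if `G` is cubic, `w` is an eulerian `{1,2}`-weight, `e₀` is a weight-2 edge on a 5-circuit
`C₀` all of whose other edges have weight 1, and `(G - e₀, w)` has a faithful circuit cover, then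
`(G, w)` has a faithful circuit cover. -/
def Statement : Prop :=
  ∀ (V E : Type) (_ : Fintype V) (_ : DecidableEq V) (_ : Fintype E) (_ : DecidableEq E)
    (G : Graph V E) (w : E → ℕ) (e₀ : E) (C₀ : Finset E),
    G.Cubic → (∀ e, w e = 1 ∨ w e = 2) → G.Eulerian w → w e₀ = 2 → G.IsCircuit C₀ →
    C₀.card = 5 → (C₀.filter fun e => w e = 2) = {e₀} →
    (∃ F, G.FaithfulCover (Finset.univ.erase e₀) w F) → ∃ F, G.FaithfulCover Finset.univ w F

end Pool.Agent.Q254.FCover
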