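import Mathlib
import Pool.Agent.Q254.FCoverDef

/-!
# An 18-vertex cubic graph where a faithful cover does not extend across a 5-circuit (helper254)
-/

namespace Pool.Agent.Q254.FCover

set_option maxRecDepth 100000

/-- First ends of the 27 edges. -/
def A : Fin 27 → Fin 18 :=
  ![0, 0, 0, 1, 1, 1, 2, 2, 3, 3, 4, 4, 5, 5, 6, 6, 7, 7, 8, 8, 9, 10, 10, 11, 12, 14, 15]

/-- Second ends of the 27 edges. -/
def B : Fin 27 → Fin 18 :=
  ![2, 3, 6, 4, 5, 7, 8, 12, 9, 13, 10, 12, 11, 13, 14, 15, 16, 17, 9, 14, 15, 11, 16, 17, 13, 16, 17]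

theorem A_ne_B : ∀ e, A e ≠ B e := by decide +kernel

/-- The cubic graph (18 vertices, 27 edges). -/
def G : Graph (Fin 18) (Fin 27) where
  ends e := s(A e, B e)
  loopless e := by rw [Sym2.mk_isDiag_iff]; exact A_ne_B e

/-- The weight: the 9 edges of weight 2 form a perfect matching. -/
def w : Fin 27 → ℕ :=
  ![1, 2, 1, 1, 1, 2, 2, 1, 1, 1, 1, 2, 1, 2, 2, 1, 1, 1, 1, 1, 2, 1, 2, 2, 1, 1, 1]

theorem mem_ends (v : Fin 18) (e : Fin 27) : v ∈ G.ends e ↔ v = A e ∨ v = B e := Sym2.mem_iff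

theorem at_eq (S : Finset (Fin 27)) (v : Fin 18) :
    G.at' S v = S.filter fun e => v = A e ∨ v = B e := by
  unfold Graph.at'
  exact Finset.filter_congr fun e _ => mem_ends v e

theorem cubic : G.Cubic := by
  intro v
  rw [at_eq]
  revert v
  decide +kernel

theorem weights : ∀ e, w e = 1 ∨ w e = 2 := by decide +kernel

theorem eulerian : G.Eulerian w := by
  intro v
  rw [at_eq]
  revert v
  decide +kernel

/-- The relation used in the definition of circuits. -/
theorem chain_conn {V E : Type} [DecidableEq E] (G : Graph V E) :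
    ∀ (l : List E) (S : Finset E), (∀ e ∈ l, e ∈ S) →
      l.IsChain (fun a b => ∃ v, v ∈ G.ends a ∧ v ∈ G.ends b) →
      ∀ e ∈ l, ∀ f ∈ l, Relation.ReflTransGen
        (fun a b => a ∈ S ∧ b ∈ S ∧ ∃ v, v ∈ G.ends a ∧ v ∈ G.ends b) e f
  | [], _, _, _, e, he => by simp at he
  | [x], _, _, _, e, he => by
    intro f hf
    rw [List.mem_singleton.1 he, List.mem_singleton.1 hf]
  | x :: y :: l, S, hS, hc, e, he => by
    intro f hf
    rw [List.isChain_cons_cons] at hc
    have ih := chain_conn G (y :: l) S (fun e he => hS e (List.mem_cons_of_mem _ he)) hc.2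
    obtain ⟨v, hx, hy⟩ := hc.1
    have hxS := hS x (by simp)
    have hyS := hS y (by simp)
    have xy : Relation.ReflTransGen
        (fun a b => a ∈ S ∧ b ∈ S ∧ ∃ v, v ∈ G.ends a ∧ v ∈ G.ends b) x y :=
      Relation.ReflTransGen.single ⟨hxS, hyS, v, hx, hy⟩
    have yx : Relation.ReflTransGen
        (fun a b => a ∈ S ∧ b ∈ S ∧ ∃ v, v ∈ G.ends a ∧ v ∈ G.ends b) y x :=
      Relation.ReflTransGen.single ⟨hyS, hxS, v, hy, hx⟩
    rcases List.mem_cons.1 he with rfl | he
    · rcases List.mem_cons.1 hf with rfl | hf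
      · exact Relation.ReflTransGen.refl
      · exact xy.trans (ih y (by simp) f hf)
    · rcases List.mem_cons.1 hf with hfx | hf
      · rw [hfx]; exact (ih e he y (by simp)).trans yx
      · exact ih e he f hf

/-- consecutive edges share an end: a decidable form -/
def share (e f : Fin 27) : Bool :=
  (A e == A f) || ((A e == B f) || ((B e == A f) || (B e == B f)))

theorem share_spec {e f : Fin 27} (h : share e f = true) : ∃ v, v ∈ G.ends e ∧ v ∈ G.ends f := by
  simp only [share, Bool.or_eq_true, beq_iff_eq] at h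
  rcases h with h | h | h | h
  · exact ⟨A e, (mem_ends _ _).2 (Or.inl rfl), (mem_ends _ _).2 (Or.inl h)⟩
  · exact ⟨A e, (mem_ends _ _).2 (Or.inl rfl), (mem_ends _ _).2 (Or.inr h)⟩
  · exact ⟨B e, (mem_ends _ _).2 (Or.inr rfl), (mem_ends _ _).2 (Or.inl h)⟩
  · exact ⟨B e, (mem_ends _ _).2 (Or.inr rfl), (mem_ends _ _).2 (Or.inr h)⟩

/-- circuit test for a cyclically ordered list of edges -/
theorem isCircuit_of_list (l : List (Fin 27)) (h0 : l ≠ [])
    (h1 : ∀ v : Fin 18, (l.toFinset.filter fun e => v = A e ∨ v = B e).card = 0 ∨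
      (l.toFinset.filter fun e => v = A e ∨ v = B e).card = 2)
    (h2 : l.IsChain (fun a b => share a b = true)) : G.IsCircuit l.toFinset := by
  refine ⟨?_, fun v => ?_, ?_⟩
  · rw [List.toFinset_nonempty_iff]; exact h0
  · rw [at_eq]; exact h1 v
  · intro e he f hf
    exact chain_conn G l l.toFinset (fun e he => List.mem_toFinset.2 he)
      (h2.imp fun a b hab => share_spec hab) e (List.mem_toFinset.1 he) f (List.mem_toFinset.1 hf)

/-- three circuits avoiding the edge `1` -/
def c1 : List (Fin 27) := [0, 6, 18, 20, 26, 23, 21, 22, 25, 14, 2]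
/-- second circuit -/
def c2 : List (Fin 27) := [4, 13, 9, 8, 20, 15, 14, 19, 6, 7, 11, 10, 22, 16, 5]
/-- third circuit -/
def c3 : List (Fin 27) := [3, 11, 24, 13, 12, 23, 17, 5]
/-- the 5-circuit through the edge `1` -/
def c0 : List (Fin 27) := [0, 7, 24, 9, 1]

instance (l : List (Fin 27)) : Decidable (l.IsChain (fun a b => share a b = true)) :=
  inferInstance

theorem circ0 : G.IsCircuit c0.toFinset :=
  isCircuit_of_list c0 (by decide) (by decide +kernel) (by decide +kernel)
theorem circ1 : G.IsCircuit c1.toFinset :=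
  isCircuit_of_list c1 (by decide) (by decide +kernel) (by decide +kernel)
theorem circ2 : G.IsCircuit c2.toFinset :=
  isCircuit_of_list c2 (by decide) (by decide +kernel) (by decide +kernel)
theorem circ3 : G.IsCircuit c3.toFinset :=
  isCircuit_of_list c3 (by decide) (by decide +kernel) (by decide +kernel)

theorem cover_minus : G.FaithfulCover (Finset.univ.erase 1) w
    [c1.toFinset, c2.toFinset, c3.toFinset] := by
  refine ⟨?_, ?_⟩
  · intro S hS
    simp only [List.mem_cons, List.not_mem_nil, or_false] at hS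
    rcases hS with rfl | rfl | rfl
    · exact ⟨circ1, by decide +kernel⟩
    · exact ⟨circ2, by decide +kernel⟩
    · exact ⟨circ3, by decide +kernel⟩
  · decide +kernel

theorem card_c0 : c0.toFinset.card = 5 := by decide +kernel

theorem filter_c0 : (c0.toFinset.filter fun e => w e = 2) = {1} := by decide +kernel

/-- the weight-2 edge at a vertex -/
def te : Fin 18 → Fin 27 := ![1, 5, 6, 1, 11, 13, 14, 5, 6, 20, 22, 23, 11, 13, 14, 20, 22, 23]
/-- the first weight-1 edge at a vertex -/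
def ta : Fin 18 → Fin 27 := ![0, 3, 0, 8, 3, 4, 2, 16, 18, 8, 10, 12, 7, 9, 19, 15, 16, 17]
/-- the second weight-1 edge at a vertex -/
def tb : Fin 18 → Fin 27 := ![2, 4, 7, 9, 10, 12, 15, 17, 19, 18, 21, 21, 24, 24, 25, 26, 25, 26]

theorem table : ∀ (v : Fin 18) (x : Fin 27), (v = A x ∨ v = B x) ↔ (x = te v ∨ x = ta v ∨ x = tb v) := by
  decide +kernel

theorem table_w : ∀ v : Fin 18, w (te v) = 2 ∧ w (ta v) = 1 ∧ w (tb v) = 1 ∧ te v ≠ ta v ∧
    te v ≠ tb v ∧ ta v ≠ tb v := by decide +kernel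

theorem circuit_local {T : Finset (Fin 27)} (hT : G.IsCircuit T) (v : Fin 18) :
    (te v ∈ T → ta v ∈ T ∨ tb v ∈ T) ∧ (ta v ∈ T → te v ∈ T ∨ tb v ∈ T) ∧
    (tb v ∈ T → te v ∈ T ∨ ta v ∈ T) ∧ ¬ (te v ∈ T ∧ ta v ∈ T ∧ tb v ∈ T) := by
  have h := hT.2.1 v
  obtain ⟨-, -, -, h1, h2, h3⟩ := table_w v
  have h4 : G.at' T v = ({te v, ta v, tb v} : Finset (Fin 27)).filter (fun x => x ∈ T) := by
    ext x
    rw [at_eq, Finset.mem_filter, Finset.mem_filter, table v x]
    simp only [Finset.mem_insert, Finset.mem_singleton]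
    tauto
  rw [h4] at h
  by_cases he : te v ∈ T <;> by_cases ha : ta v ∈ T <;> by_cases hb : tb v ∈ T <;>
    simp [Finset.filter_insert, Finset.filter_singleton, he, ha, hb, h1, h2, h3] at h ⊢

/-- The labels: in a faithful cover, every weight-1 edge lies in exactly one member; the members
through the weight-2 edge at a vertex are the two labels there. -/
theorem labels (F : List (Finset (Fin 27))) (hF : G.FaithfulCover Finset.univ w F) :
    ∃ M : Fin 27 → Finset (Fin 27), ∀ v : Fin 18, M (ta v) ≠ M (tb v) ∧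
      ∀ T, (T ∈ F ∧ te v ∈ T) ↔ (T = M (ta v) ∨ T = M (tb v)) := by
  have hex : ∀ a : Fin 27, ∃ S : Finset (Fin 27), w a = 1 → ∀ T, (T ∈ F ∧ a ∈ T) ↔ T = S := by
    intro a
    by_cases hw : w a = 1
    · have h1 := hF.2 a (Finset.mem_univ a)
      rw [hw, List.length_eq_one_iff] at h1
      obtain ⟨S, hS⟩ := h1
      refine ⟨S, fun _ T => ?_⟩
      have : T ∈ F.filter (fun S => decide (a ∈ S)) ↔ T = S := by rw [hS]; simp
      rw [← this, List.mem_filter, decide_eq_true_eq]
    · exact ⟨∅, fun h => absurd h hw⟩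
  choose M hM using hex
  refine ⟨M, fun v => ?_⟩
  obtain ⟨we, wa, wb, -, -, -⟩ := table_w v
  have Ma := hM (ta v) wa
  have Mb := hM (tb v) wb
  have ma := (Ma (M (ta v))).2 rfl
  have mb := (Mb (M (tb v))).2 rfl
  have la := circuit_local (hF.1 _ ma.1).1 v
  have lb := circuit_local (hF.1 _ mb.1).1 v
  have hne : M (ta v) ≠ M (tb v) := by
    intro heq
    have h2 := hF.2 (te v) (Finset.mem_univ _)
    rw [we] at h2
    have h3 : (F.filter fun S => decide (te v ∈ S)) ≠ [] := by
      intro h4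
      rw [h4] at h2
      simp at h2
    obtain ⟨T, hT⟩ := List.exists_mem_of_ne_nil _ h3
    rw [List.mem_filter, decide_eq_true_eq] at hT
    have lT := circuit_local (hF.1 _ hT.1).1 v
    have hb' : tb v ∈ M (ta v) := by rw [heq]; exact mb.2
    have hTM : T = M (ta v) := by
      rcases lT.1 hT.2 with h5 | h5
      · exact (Ma T).1 ⟨hT.1, h5⟩
      · rw [heq]; exact (Mb T).1 ⟨hT.1, h5⟩
    rw [hTM] at hT
    exact la.2.2.2 ⟨hT.2, ma.2, hb'⟩
  refine ⟨hne, fun T => ⟨fun hT => ?_, fun hT => ?_⟩⟩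
  · rcases (circuit_local (hF.1 _ hT.1).1 v).1 hT.2 with h5 | h5
    · exact Or.inl ((Ma T).1 ⟨hT.1, h5⟩)
    · exact Or.inr ((Mb T).1 ⟨hT.1, h5⟩)
  · rcases hT with rfl | rfl
    · refine ⟨ma.1, ?_⟩
      rcases la.2.1 ma.2 with h5 | h5
      · exact h5
      · exact absurd ((Mb _).1 ⟨ma.1, h5⟩) hne
    · refine ⟨mb.1, ?_⟩
      rcases lb.2.2.1 mb.2 with h5 | h5
      · exact h5
      · exact absurd ((Ma _).1 ⟨mb.1, h5⟩) hne.symm

/-- merge two classes -/
def merge (rep : List ℕ) (x y : Fin 27) : List ℕ :=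
  rep.map fun r => if r = rep.getD x 0 then rep.getD y 0 else r

/-- some vertex has its two weight-1 edges in one class -/
def bad (rep : List ℕ) : Bool :=
  (List.finRange 18).any fun v => rep.getD (ta v) 0 == rep.getD (tb v) 0

/-- the case distinction over the weight-2 edges -/
def ref : List (Fin 18 × Fin 18) → List ℕ → Bool
  | [], rep => bad rep
  | p :: l, rep => bad rep ||
      (ref l (merge (merge rep (ta p.1) (ta p.2)) (tb p.1) (tb p.2)) &&
        ref l (merge (merge rep (ta p.1) (tb p.2)) (tb p.1) (ta p.2)))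

/-- the weight-2 edges as pairs of vertices -/
def mt : List (Fin 18 × Fin 18) := [(0, 3), (1, 7), (2, 8), (4, 12), (5, 13), (6, 14), (9, 15), (10, 16), (11, 17)]

theorem mt_spec : ∀ p ∈ mt, te p.1 = te p.2 := by decide +kernel

theorem ref_true : ref mt (List.range 27) = true := by decide +kernel

/-- equal representatives have equal labels -/
def Inv {L : Type} (M : Fin 27 → L) (rep : List ℕ) : Prop :=
  rep.length = 27 ∧ ∀ i j : Fin 27, rep.getD i 0 = rep.getD j 0 → M i = M j

theorem merge_getD {rep : List ℕ} (h : rep.length = 27) (x y i : Fin 27) :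
    (merge rep x y).getD i 0 = if rep.getD i 0 = rep.getD x 0 then rep.getD y 0 else rep.getD i 0 := by
  have hi : (i : ℕ) < rep.length := by rw [h]; exact i.2
  unfold merge
  rw [List.getD_eq_getElem _ _ (by rw [List.length_map]; exact hi), List.getElem_map,
    ← List.getD_eq_getElem rep 0 hi]

theorem inv_merge {L : Type} {M : Fin 27 → L} {rep : List ℕ} (h : Inv M rep) {x y : Fin 27}
    (hxy : M x = M y) : Inv M (merge rep x y) := by
  refine ⟨by unfold merge; rw [List.length_map]; exact h.1, fun i j hij => ?_⟩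
  rw [merge_getD h.1, merge_getD h.1] at hij
  split_ifs at hij with h1 h2 h2
  · rw [h.2 i x h1, h.2 j x h2]
  · rw [h.2 i x h1, hxy]; exact h.2 y j hij
  · rw [h.2 j x h2, hxy]; exact h.2 i y hij
  · exact h.2 i j hij

theorem bad_false {L : Type} {M : Fin 27 → L} {rep : List ℕ} (h : Inv M rep)
    (hne : ∀ v, M (ta v) ≠ M (tb v)) : bad rep = false := by
  rw [Bool.eq_false_iff]
  intro hb
  simp only [bad, List.any_eq_true, beq_iff_eq] at hb
  obtain ⟨v, -, hv⟩ := hb
  exact hne v (h.2 _ _ hv)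

theorem ref_sound {L : Type} {M : Fin 27 → L} (hne : ∀ v, M (ta v) ≠ M (tb v)) :
    ∀ (l : List (Fin 18 × Fin 18)) (rep : List ℕ),
      (∀ p ∈ l, (M (ta p.1) = M (ta p.2) ∧ M (tb p.1) = M (tb p.2)) ∨
        (M (ta p.1) = M (tb p.2) ∧ M (tb p.1) = M (ta p.2))) →
      Inv M rep → ref l rep = false
  | [], rep, _, hi => bad_false hi hne
  | p :: l, rep, hl, hi => by
    have hl' := fun q hq => hl q (List.mem_cons_of_mem _ hq)
    rw [ref, bad_false hi hne, Bool.false_or]
    rcases hl p (by simp) with ⟨h1, h2⟩ | ⟨h1, h2⟩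
    · rw [ref_sound hne l _ hl' (inv_merge (inv_merge hi h1) h2), Bool.false_and]
    · rw [ref_sound hne l _ hl' (inv_merge (inv_merge hi h1) h2), Bool.and_false]

theorem inv_init {L : Type} (M : Fin 27 → L) : Inv M (List.range 27) := by
  refine ⟨List.length_range, fun i j hij => ?_⟩
  have h1 : ∀ i : Fin 27, (List.range 27).getD i 0 = i := by
    intro i
    rw [List.getD_eq_getElem _ _ (by rw [List.length_range]; exact i.2), List.getElem_range]
  rw [h1, h1] at hij
  rw [Fin.ext hij]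

theorem no_cover : ¬ ∃ F, G.FaithfulCover Finset.univ w F := by
  rintro ⟨F, hF⟩
  obtain ⟨M, hM⟩ := labels F hF
  have h1 := ref_sound (M := M) (fun v => (hM v).1) mt (List.range 27) (fun p hp => ?_) (inv_init M)
  · rw [ref_true] at h1
    exact absurd h1 (by simp)
  · have hte := mt_spec p hp
    have hu := hM p.1
    have hv := hM p.2
    have key : ∀ T, (T = M (ta p.1) ∨ T = M (tb p.1)) ↔ (T = M (ta p.2) ∨ T = M (tb p.2)) := by
      intro T
      rw [← hu.2 T, ← hv.2 T, hte]
    have k1 := (key (M (ta p.1))).1 (Or.inl rfl)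
    have k2 := (key (M (tb p.1))).1 (Or.inr rfl)
    rcases k1 with k1 | k1 <;> rcases k2 with k2 | k2
    · exact absurd (k1.trans k2.symm) hu.1
    · exact Or.inl ⟨k1, k2⟩
    · exact Or.inr ⟨k1, k2⟩
    · exact absurd (k1.trans k2.symm) hu.1

end Pool.Agent.Q254.FCover
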