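import Mathlib

/-!
# Kneser graphs and alternating orientations: definitions (helper254)
-/

namespace Pool.Agent.Q254.Kneser

/-- The Kneser graph `KG(n,k)`: vertices are the `k`-element subsets of an `n`-element set, two
vertices being adjacent when they are disjoint (and distinct). -/
def KG (n k : ℕ) : SimpleGraph {s : Finset (Fin n) // s.card = k} where
  Adj s t := Disjoint s.1 t.1 ∧ s ≠ t
  symm := ⟨fun _ _ h => ⟨h.1.symm, h.2.symm⟩⟩
  loopless := ⟨fun _ h => h.2 rfl⟩

/-- `o` is an orientation of `G`: every edge gets exactly one of its two directions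
(`o u v` means that the edge `uv` is directed from `u` to `v`). -/
def IsOrientation {V : Type} (G : SimpleGraph V) (o : V → V → Prop) : Prop :=
  ∀ u v, G.Adj u v → (o u v ↔ ¬ o v u)

/-- `c` lists the vertices of a cycle of length `m` in cyclic order. -/
def IsCyc {V : Type} (G : SimpleGraph V) (m : ℕ) (c : ZMod m → V) : Prop :=
  3 ≤ m ∧ Function.Injective c ∧ ∀ i, G.Adj (c i) (c (i + 1))

/-- `c` is a shortest odd cycle. -/
def IsShortestOddCyc {V : Type} (G : SimpleGraph V) (m : ℕ) (c : ZMod m → V) : Prop :=
  Odd m ∧ IsCyc G m c ∧ ∀ (m' : ℕ) (c' : ZMod m' → V), Odd m' → IsCyc G m' c' → m ≤ m'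

/-- The `i`-th vertex of the cycle has both positive in-degree and positive out-degree inside the
cycle. -/
def Through {V : Type} (o : V → V → Prop) {m : ℕ} (c : ZMod m → V) (i : ZMod m) : Prop :=
  (o (c (i - 1)) (c i) ∨ o (c (i + 1)) (c i)) ∧ (o (c i) (c (i - 1)) ∨ o (c i) (c (i + 1)))

/-- An oriented odd cycle is alternating if exactly one vertex is neither a source nor a sink. -/
def IsAlternating {V : Type} (o : V → V → Prop) {m : ℕ} (c : ZMod m → V) : Prop :=
  ∃! i : ZMod m, Through o c i

/-- Q1: every Kneser graph `KG(n,k)`, `n ≥ 2k ≥ 2`, has an orientation in which every shortest odd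
cycle is alternating. -/
def Statement : Prop :=
  ∀ n k : ℕ, 1 ≤ k → 2 * k ≤ n →
    ∃ o : {s : Finset (Fin n) // s.card = k} → {s : Finset (Fin n) // s.card = k} → Prop,
      IsOrientation (KG n k) o ∧
      ∀ (m : ℕ) (c : ZMod m → {s : Finset (Fin n) // s.card = k}),
        IsShortestOddCyc (KG n k) m c → IsAlternating o c

end Pool.Agent.Q254.Kneser
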