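import Mathlib
import Pool.Agent.Q254.Kneser

/-!
# `KG(8,3)` has no orientation in which every 5-cycle is alternating (helper254)
-/

namespace Pool.Agent.Q254.Kneser

set_option maxRecDepth 100000

/-- Vertices of `KG(8,3)`. -/
abbrev V83 := {s : Finset (Fin 8) // s.card = 3}

/-- the set with a given mask -/
def setOf (x : ℕ) : Finset (Fin 8) := Finset.univ.filter fun i : Fin 8 => x.testBit i

theorem setOf_card : ∀ i : Fin 56, (setOf (mk i)).card = 3 := by decide +kernel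

theorem setOf_disj : ∀ i j : Fin 56, Nat.land (mk i) (mk j) = 0 → Disjoint (setOf (mk i)) (setOf (mk j)) := by
  intro i j h
  rw [Finset.disjoint_left]
  intro a ha hb
  have h1 := (Finset.mem_filter.1 ha).2
  have h2 := (Finset.mem_filter.1 hb).2
  have h3 : (mk i &&& mk j).testBit (a : ℕ) = true := by
    rw [Nat.testBit_and, h1, h2]; rfl
  have h4 : mk i &&& mk j = 0 := h
  rw [h4] at h3
  simp at h3

/-- The vertex with a given index (arbitrary for indices `≥ 56`). -/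
def vt (i : ℕ) : V83 := if h : i < 56 then ⟨setOf (mk i), setOf_card ⟨i, h⟩⟩ else ⟨{0, 1, 2}, by decide⟩

theorem setOf_inj : ∀ i j : Fin 56, setOf (mk i) = setOf (mk j) → i = j := by
  decide +kernel

theorem vt_inj {i j : ℕ} (hi : i < 56) (hj : j < 56) (h : vt i = vt j) : i = j := by
  unfold vt at h
  rw [dif_pos hi, dif_pos hj, Subtype.mk.injEq] at h
  have := setOf_inj ⟨i, hi⟩ ⟨j, hj⟩ h
  simpa using this

theorem vt_adj {i j : ℕ} (h : adj i j = true) : (KG 8 3).Adj (vt i) (vt j) := by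
  obtain ⟨hi, hj⟩ := adj_lt h
  have h0 : Nat.land (mk i) (mk j) = 0 := by
    simp only [adj, Bool.and_eq_true] at h
    exact Nat.eq_of_beq_eq_true h.2.2
  have hd : Disjoint (vt i).1 (vt j).1 := by
    unfold vt
    rw [dif_pos hi, dif_pos hj]
    exact setOf_disj ⟨i, hi⟩ ⟨j, hj⟩ h0
  refine ⟨hd, fun he => ?_⟩
  rw [he, disjoint_self] at hd
  have := (vt j).2
  rw [Finset.bot_eq_empty] at hd
  rw [hd] at this
  simp at this

/-- the cycle through five given vertices -/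
def cycOf (a b c d e : V83) : ZMod 5 → V83 := fun i => ![a, b, c, d, e] i

theorem zmod5_cases (P : ZMod 5 → Prop) (h0 : P 0) (h1 : P 1) (h2 : P 2) (h3 : P 3) (h4 : P 4) :
    ∀ i, P i := by
  intro i
  fin_cases i
  · exact h0
  · exact h1
  · exact h2
  · exact h3
  · exact h4

theorem isCyc_of_cyc {a b c d e : ℕ} (h : cyc a b c d e = true) :
    IsCyc (KG 8 3) 5 (cycOf (vt a) (vt b) (vt c) (vt d) (vt e)) := by
  obtain ⟨hab, hbc, hcd, hde, hea⟩ := cyc_adj h
  have ab := vt_adj hab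
  have bc := vt_adj hbc
  have cd := vt_adj hcd
  have de := vt_adj hde
  have ea := vt_adj hea
  have la := (adj_lt hab).1
  have lb := (adj_lt hbc).1
  have lc := (adj_lt hcd).1
  have ld := (adj_lt hde).1
  have le := (adj_lt hea).1
  have hne : a ≠ c ∧ a ≠ d ∧ b ≠ d ∧ b ≠ e ∧ c ≠ e := by
    simp only [cyc, Bool.and_eq_true, Bool.not_eq_true'] at h
    have hb : ∀ x y : ℕ, x.beq y = false → x ≠ y := fun x y hxy he => by
      rw [he, Nat.beq_refl] at hxy; exact absurd hxy (by simp)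
    exact ⟨hb _ _ h.2.2.2.2.2.1, hb _ _ h.2.2.2.2.2.2.1, hb _ _ h.2.2.2.2.2.2.2.1,
      hb _ _ h.2.2.2.2.2.2.2.2.1, hb _ _ h.2.2.2.2.2.2.2.2.2⟩
  obtain ⟨n1, n2, n3, n4, n5⟩ := hne
  have ac : vt a ≠ vt c := fun h => n1 (vt_inj la lc h)
  have ad : vt a ≠ vt d := fun h => n2 (vt_inj la ld h)
  have bd : vt b ≠ vt d := fun h => n3 (vt_inj lb ld h)
  have be : vt b ≠ vt e := fun h => n4 (vt_inj lb le h)
  have ce : vt c ≠ vt e := fun h => n5 (vt_inj lc le h)
  have ab' := ab.ne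
  have bc' := bc.ne
  have cd' := cd.ne
  have de' := de.ne
  have ea' := ea.ne
  generalize vt a = A at *
  generalize vt b = B at *
  generalize vt c = C at *
  generalize vt d = D at *
  generalize vt e = E at *
  refine ⟨by norm_num, ?_, zmod5_cases _ ab bc cd de ea⟩
  have hl : List.Nodup [A, B, C, D, E] := by
    simp only [List.nodup_cons, List.mem_cons, List.not_mem_nil, or_false, not_or,
      not_false_eq_true, List.nodup_nil, and_true]
    exact ⟨⟨ab', ac, ad, ea'.symm⟩, ⟨bc', bd, be⟩, ⟨cd', ce⟩, de'⟩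
  intro i j hij
  have h1 := List.nodup_ofFn.1 (show (List.ofFn ![A, B, C, D, E]).Nodup from hl)
  exact h1 hij

theorem no_triangle (m : ℕ) (c : ZMod m → V83) (ho : Odd m) (hc : IsCyc (KG 8 3) m c) : 5 ≤ m := by
  by_contra hcon
  have h3 := hc.1
  have hm : m = 3 := by
    obtain ⟨r, hr⟩ := ho
    omega
  subst hm
  have h01 := (hc.2.2 0).1
  have h12 := (hc.2.2 1).1
  have h20 := (hc.2.2 2).1
  have e1 : (0 : ZMod 3) + 1 = 1 := rfl
  have e2 : (1 : ZMod 3) + 1 = 2 := rfl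
  have e3 : (2 : ZMod 3) + 1 = 0 := rfl
  rw [e1] at h01
  rw [e2] at h12
  rw [e3] at h20
  have h4 : ((c 0).1 ∪ (c 1).1 ∪ (c 2).1).card = 9 := by
    rw [Finset.card_union_of_disjoint, Finset.card_union_of_disjoint h01, (c 0).2, (c 1).2, (c 2).2]
    rw [Finset.disjoint_union_left]
    exact ⟨h20.symm, h12⟩
  have h5 := Finset.card_le_univ ((c 0).1 ∪ (c 1).1 ∪ (c 2).1)
  rw [h4, Fintype.card_fin] at h5
  omega

theorem shortest {c : ZMod 5 → V83} (hc : IsCyc (KG 8 3) 5 c) : IsShortestOddCyc (KG 8 3) 5 c :=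
  ⟨by decide, hc, fun m' c' ho hc' => no_triangle m' c' ho hc'⟩

/-- propositional core of the two rules -/
theorem core {V : Type} (o : V → V → Prop) (A B C D E : V) (ab : o A B ↔ ¬ o B A)
    (bc : o B C ↔ ¬ o C B) (cd : o C D ↔ ¬ o D C) (de : o D E ↔ ¬ o E D) (ea : o E A ↔ ¬ o A E)
    (h : ∃! i : ZMod 5, Through o (fun i : ZMod 5 => ![A, B, C, D, E] i) i) :
    (o A B → o B C → o A E ∧ o D E ∧ o D C) ∧ (o A B → o C D → o C B) := by
  obtain ⟨i, -, hu⟩ := h
  have ba : o B A ↔ ¬ o A B := by rw [ab, not_not]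
  have cb : o C B ↔ ¬ o B C := by rw [bc, not_not]
  have dc : o D C ↔ ¬ o C D := by rw [cd, not_not]
  have ed : o E D ↔ ¬ o D E := by rw [de, not_not]
  have ae : o A E ↔ ¬ o E A := by rw [ea, not_not]
  have t0 : Through o (fun i : ZMod 5 => ![A, B, C, D, E] i) 0 ↔
      (o E A ∨ o B A) ∧ (o A E ∨ o A B) := Iff.rfl
  have t1 : Through o (fun i : ZMod 5 => ![A, B, C, D, E] i) 1 ↔
      (o A B ∨ o C B) ∧ (o B A ∨ o B C) := Iff.rfl
  have t2 : Through o (fun i : ZMod 5 => ![A, B, C, D, E] i) 2 ↔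
      (o B C ∨ o D C) ∧ (o C B ∨ o C D) := Iff.rfl
  have t3 : Through o (fun i : ZMod 5 => ![A, B, C, D, E] i) 3 ↔
      (o C D ∨ o E D) ∧ (o D C ∨ o D E) := Iff.rfl
  have t4 : Through o (fun i : ZMod 5 => ![A, B, C, D, E] i) 4 ↔
      (o D E ∨ o A E) ∧ (o E D ∨ o E A) := Iff.rfl
  rw [ba, ae] at t0
  rw [cb, ba] at t1
  rw [dc, cb] at t2
  rw [ed, dc] at t3
  rw [ae, ed] at t4
  have hun : ∀ j k : ZMod 5, Through o (fun i : ZMod 5 => ![A, B, C, D, E] i) j →
      Through o (fun i : ZMod 5 => ![A, B, C, D, E] i) k → j = k :=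
    fun j k hj hk => (hu j hj).trans (hu k hk).symm
  have n12 : (1 : ZMod 5) ≠ 2 := by decide
  have n13 : (1 : ZMod 5) ≠ 3 := by decide
  have n14 : (1 : ZMod 5) ≠ 4 := by decide
  rw [cb, dc, ae]
  constructor
  · intro h1 h2
    have T1 := t1.2 ⟨Or.inl h1, Or.inr h2⟩
    have h3 : ¬ o C D := fun h3 => n12 (hun 1 2 T1 (t2.2 ⟨Or.inl h2, Or.inr h3⟩))
    have h4 : o D E := by
      by_contra h4
      exact n13 (hun 1 3 T1 (t3.2 ⟨Or.inr h4, Or.inl h3⟩))
    have h5 : ¬ o E A := fun h5 => n14 (hun 1 4 T1 (t4.2 ⟨Or.inl h4, Or.inr h5⟩))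
    exact ⟨h5, h4, h3⟩
  · intro h1 h3 h2
    exact n12 (hun 1 2 (t1.2 ⟨Or.inl h1, Or.inr h2⟩) (t2.2 ⟨Or.inl h2, Or.inr h3⟩))

theorem good_of (o : V83 → V83 → Prop) (ho : IsOrientation (KG 8 3) o)
    (h : ∀ c : ZMod 5 → V83, IsCyc (KG 8 3) 5 c → IsAlternating o c) :
    Good fun i j => o (vt i) (vt j) := by
  have hadj : ∀ i j, adj i j = true → (o (vt i) (vt j) ↔ ¬ o (vt j) (vt i)) :=
    fun i j hij => ho _ _ (vt_adj hij)
  refine ⟨fun i j hij h1 h2 => (hadj i j hij).1 h1 h2, fun i j hij => ?_, ?_, ?_⟩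
  · by_cases h1 : o (vt j) (vt i)
    · exact Or.inr h1
    · exact Or.inl ((hadj i j hij).2 h1)
  · intro a b c d e hc
    obtain ⟨hab, hbc, hcd, hde, hea⟩ := cyc_adj hc
    exact (core o _ _ _ _ _ (hadj a b hab) (hadj b c hbc) (hadj c d hcd) (hadj d e hde)
      (hadj e a hea) (h _ (isCyc_of_cyc hc))).1
  · intro a b c d e hc
    obtain ⟨hab, hbc, hcd, hde, hea⟩ := cyc_adj hc
    exact (core o _ _ _ _ _ (hadj a b hab) (hadj b c hbc) (hadj c d hcd) (hadj d e hde)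
      (hadj e a hea) (h _ (isCyc_of_cyc hc))).2

/-- Every orientation of `KG(8,3)` leaves some shortest odd cycle (of length 5) non-alternating. -/
theorem main (o : V83 → V83 → Prop) (ho : IsOrientation (KG 8 3) o) :
    ∃ c : ZMod 5 → V83, IsShortestOddCyc (KG 8 3) 5 c ∧ ¬ IsAlternating o c := by
  by_contra hcon
  push Not at hcon
  exact no_good _ (good_of o ho fun c hc => hcon c (shortest hc))

end Pool.Agent.Q254.Kneser
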